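import Mathlib
import Pool.Agent.H807R2.Dav1

/-!
# Words at a good place: the basic counting

* `fejer`: if the exponential sums of a weighted family are small for the frequencies `0 < |h| < H`, then every interval
  `[V / H, (V + 1) / H)` modulo one has weight at most `10 W / H`;
* `count_few`: few integers `V < B ^ L` have only `m` digits `W` in base `B`;
* `stands_iff`: the digits in base `b ^ k` of `⌊H {b ^ i u}⌋` are the words behind the `i`-th digit of `u`.
-/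

set_option autoImplicit false

namespace Pool.Agent.N710.PW

open Finset
open Pool.Agent.H807R2.Dav (ee norm_ee ee_add ee_zero ee_int ee_add_int ee_eq)

/-- The word of length `k` with value `W` stands in the base `b` expansion of `y` right after the `i`-th digit. -/
def Stands (b k W : ℕ) (y : ℝ) (i : ℕ) : Prop := ⌊(b : ℝ) ^ (i + k) * y⌋ % ((b : ℤ) ^ k) = (W : ℤ)

/-- the exponential sum of the family at the frequency `t` -/
noncomputable def SS (s : Finset ℕ) (w u : ℕ → ℝ) (t : ℝ) : ℂ := ∑ n ∈ s, (w n : ℂ) * ee (t * u n)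

lemma ee_neg_mul (x : ℝ) : ee (-x) = (starRingEnd ℂ) (ee x) := by
  rw [ee_eq, ee_eq, ← Complex.exp_conj]
  congr 1
  rw [map_mul, Complex.conj_ofReal, Complex.conj_I]
  push_cast
  ring

lemma ee_mul_conj (x y : ℝ) : ee x * (starRingEnd ℂ) (ee y) = ee (x - y) := by
  rw [← ee_neg_mul, ← ee_add, sub_eq_add_neg]

lemma sq_expand (K : ℕ) (x : ℝ) : ((‖∑ h ∈ range K, ee ((h : ℝ) * x)‖ ^ 2 : ℝ) : ℂ) =
    ∑ h ∈ range K, ∑ h' ∈ range K, ee (((h : ℝ) - h') * x) := by
  push_cast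
  rw [← Complex.mul_conj', map_sum, sum_mul_sum]
  refine sum_congr rfl fun h _ => sum_congr rfl fun h' _ => ?_
  rw [ee_mul_conj]
  congr 1
  ring

lemma re_ee (x : ℝ) : (ee x).re = Real.cos (2 * Real.pi * x) := by
  rw [ee_eq, Complex.exp_ofReal_mul_I_re]

/-- lower bound for the kernel -/
lemma kernel_lower {K H : ℕ} (hK : 4 * (K - 1) ≤ H) (hH : 1 ≤ H) {δ : ℝ} (hδ : |δ| ≤ 1 / (2 * H)) :
    (K : ℝ) ^ 2 / 2 ≤ ‖∑ h ∈ range K, ee ((h : ℝ) * δ)‖ ^ 2 := by
  have hH0 : (0 : ℝ) < H := by exact_mod_cast hH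
  have h1 : ∀ h ∈ range K, Real.sqrt 2 / 2 ≤ (ee ((h : ℝ) * δ)).re := by
    intro h hh
    rw [mem_range] at hh
    rw [re_ee, ← Real.cos_pi_div_four, ← Real.cos_abs (2 * Real.pi * ((h : ℝ) * δ))]
    have h2 : (4 : ℝ) * h ≤ H := by exact_mod_cast (by omega : 4 * h ≤ H)
    have h3 : |2 * Real.pi * ((h : ℝ) * δ)| ≤ Real.pi / 4 := by
      rw [abs_mul (2 * Real.pi) ((h : ℝ) * δ), abs_mul (h : ℝ) δ, abs_of_pos (by positivity : (0 : ℝ) < 2 * Real.pi),
        abs_of_nonneg (Nat.cast_nonneg h : (0 : ℝ) ≤ h)]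
      calc 2 * Real.pi * ((h : ℝ) * |δ|) ≤ 2 * Real.pi * ((H / 4) * (1 / (2 * H))) := by
            gcongr
            linarith
        _ = Real.pi / 4 := by field_simp
    exact Real.cos_le_cos_of_nonneg_of_le_pi (abs_nonneg _) (by linarith [Real.pi_pos]) h3
  have h2 : (K : ℝ) * (Real.sqrt 2 / 2) ≤ ‖∑ h ∈ range K, ee ((h : ℝ) * δ)‖ := by
    calc (K : ℝ) * (Real.sqrt 2 / 2) = ∑ _h ∈ range K, (Real.sqrt 2 / 2) := by
          rw [sum_const, card_range, nsmul_eq_mul]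
      _ ≤ ∑ h ∈ range K, (ee ((h : ℝ) * δ)).re := sum_le_sum h1
      _ = (∑ h ∈ range K, ee ((h : ℝ) * δ)).re := by rw [Complex.re_sum]
      _ ≤ _ := Complex.re_le_norm _
  calc (K : ℝ) ^ 2 / 2 = ((K : ℝ) * (Real.sqrt 2 / 2)) ^ 2 := by
        rw [mul_pow, div_pow, Real.sq_sqrt (by norm_num : (0 : ℝ) ≤ 2)]; ring
    _ ≤ _ := pow_le_pow_left₀ (by positivity) h2 2

/-- **Counting.** If the exponential sums at the frequencies `0 < |h| < H` are at most `W / H`, then every interval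
`[V / H, (V + 1) / H)` has weight at most `10 W / H`. -/
theorem fejer (s : Finset ℕ) (w u : ℕ → ℝ) (hw : ∀ n ∈ s, 0 ≤ w n) (H : ℕ) (hH : 1 ≤ H)
    (hS : ∀ h : ℤ, h ≠ 0 → |h| < H → ‖SS s w u h‖ ≤ (∑ n ∈ s, w n) / H) (V : ℕ) :
    ∑ n ∈ s.filter (fun n => ⌊(H : ℝ) * Int.fract (u n)⌋₊ = V), w n ≤ 10 * (∑ n ∈ s, w n) / H := by
  classical
  set W := ∑ n ∈ s, w n with hWd
  have hW0 : 0 ≤ W := sum_nonneg hw
  have hH0 : (0 : ℝ) < H := by exact_mod_cast hH
  set K : ℕ := (H - 1) / 4 + 1 with hK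
  have hK4 : 4 * (K - 1) ≤ H := by omega
  have hKH : H ≤ 4 * K := by omega
  have hKH' : K ≤ H := by omega
  have hK1 : 1 ≤ K := by omega
  have hK0 : (0 : ℝ) < K := by exact_mod_cast hK1
  set x₀ : ℝ := (V + 1 / 2) / H with hx₀
  set G : ℕ → ℝ := fun n => ‖∑ h ∈ range K, ee ((h : ℝ) * (u n - x₀))‖ ^ 2 with hG
  have hG0 : ∀ n, 0 ≤ G n := fun n => by simp only [hG]; positivity
  -- upper bound
  have h1 : ∑ n ∈ s, w n * G n ≤ K * W + K ^ 2 * (W / H) := by
    have e1 : ((∑ n ∈ s, w n * G n : ℝ) : ℂ) = ∑ h ∈ range K, ∑ h' ∈ range K,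
        ee (-(((h : ℝ) - h') * x₀)) * SS s w u ((h : ℝ) - h') := by
      push_cast
      simp only [hG]
      calc ∑ n ∈ s, (w n : ℂ) * ((‖∑ h ∈ range K, ee ((h : ℝ) * (u n - x₀))‖ ^ 2 : ℝ) : ℂ)
          = ∑ n ∈ s, ∑ h ∈ range K, ∑ h' ∈ range K, (w n : ℂ) * ee (((h : ℝ) - h') * (u n - x₀)) := by
            refine sum_congr rfl fun n _ => ?_
            rw [sq_expand, mul_sum]
            refine sum_congr rfl fun h _ => ?_
            rw [mul_sum]
        _ = ∑ h ∈ range K, ∑ h' ∈ range K, ∑ n ∈ s, (w n : ℂ) * ee (((h : ℝ) - h') * (u n - x₀)) := by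
            rw [sum_comm]
            refine sum_congr rfl fun h _ => ?_
            rw [sum_comm]
        _ = _ := by
            refine sum_congr rfl fun h _ => sum_congr rfl fun h' _ => ?_
            unfold SS
            rw [mul_sum]
            refine sum_congr rfl fun n _ => ?_
            rw [show ((h : ℝ) - h') * (u n - x₀) = -(((h : ℝ) - h') * x₀) + ((h : ℝ) - h') * u n by ring, ee_add]
            ring
    have e2 : ∑ n ∈ s, w n * G n ≤ ∑ h ∈ range K, ∑ h' ∈ range K, ‖SS s w u ((h : ℝ) - h')‖ := by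
      have e3 : ∑ n ∈ s, w n * G n = ‖((∑ n ∈ s, w n * G n : ℝ) : ℂ)‖ := by
        rw [Complex.norm_real, Real.norm_eq_abs, abs_of_nonneg (sum_nonneg fun n hn => mul_nonneg (hw n hn) (hG0 n))]
      rw [e3, e1]
      refine (norm_sum_le _ _).trans (sum_le_sum fun h _ => (norm_sum_le _ _).trans (sum_le_sum fun h' _ => ?_))
      rw [norm_mul, norm_ee, one_mul]
    refine e2.trans ?_
    have e4 : ∀ h ∈ range K, ∑ h' ∈ range K, ‖SS s w u ((h : ℝ) - h')‖ ≤ W + K * (W / H) := by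
      intro h hh
      rw [← add_sum_erase (range K) (fun h' => ‖SS s w u ((h : ℝ) - h')‖) hh]
      apply add_le_add
      · rw [sub_self]
        unfold SS
        refine (norm_sum_le _ _).trans (le_of_eq (sum_congr rfl fun n hn => ?_))
        rw [norm_mul, norm_ee, mul_one, Complex.norm_real, Real.norm_eq_abs, abs_of_nonneg (hw n hn)]
      · calc ∑ h' ∈ (range K).erase h, ‖SS s w u ((h : ℝ) - h')‖ ≤ ∑ _h' ∈ (range K).erase h, W / H := by
              refine sum_le_sum fun h' hh' => ?_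
              rw [mem_erase, mem_range] at hh'
              rw [mem_range] at hh
              have := hS ((h : ℤ) - h') (by omega) (by rw [abs_lt]; constructor <;> omega)
              push_cast at this
              exact this
          _ = (((range K).erase h).card : ℝ) * (W / H) := by rw [sum_const, nsmul_eq_mul]
          _ ≤ K * (W / H) := by
              apply mul_le_mul_of_nonneg_right _ (by positivity)
              have := card_le_card (erase_subset h (range K))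
              rw [card_range] at this
              exact_mod_cast this
    calc ∑ h ∈ range K, ∑ h' ∈ range K, ‖SS s w u ((h : ℝ) - h')‖ ≤ ∑ _h ∈ range K, (W + K * (W / H)) := sum_le_sum e4
      _ = K * W + K ^ 2 * (W / H) := by rw [sum_const, card_range, nsmul_eq_mul]; ring
  -- lower bound
  have h2 : ∀ n ∈ s.filter (fun n => ⌊(H : ℝ) * Int.fract (u n)⌋₊ = V), (K : ℝ) ^ 2 / 2 ≤ G n := by
    intro n hn
    rw [mem_filter] at hn
    have hfl := hn.2
    have h0 : 0 ≤ (H : ℝ) * Int.fract (u n) := mul_nonneg hH0.le (Int.fract_nonneg _)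
    have h3 : (V : ℝ) ≤ (H : ℝ) * Int.fract (u n) := by rw [← hfl]; exact Nat.floor_le h0
    have h4 : (H : ℝ) * Int.fract (u n) < V + 1 := by rw [← hfl]; exact Nat.lt_floor_add_one _
    have h5 : |Int.fract (u n) - x₀| ≤ 1 / (2 * H) := by
      rw [hx₀, abs_le]
      constructor
      · rw [← sub_nonneg]
        have : Int.fract (u n) - (V + 1 / 2) / H - -(1 / (2 * (H : ℝ))) = (H * Int.fract (u n) - V) / H := by
          field_simp; ring
        rw [this]
        apply div_nonneg (by linarith) hH0.le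
      · rw [← sub_nonneg]
        have : 1 / (2 * (H : ℝ)) - (Int.fract (u n) - (V + 1 / 2) / H) = (V + 1 - H * Int.fract (u n)) / H := by
          field_simp; ring
        rw [this]
        apply div_nonneg (by linarith) hH0.le
    have h6 := kernel_lower hK4 hH h5
    refine h6.trans (le_of_eq ?_)
    simp only [hG]
    congr 2
    refine sum_congr rfl fun h _ => ?_
    rw [show (h : ℝ) * (u n - x₀) = (h : ℝ) * (Int.fract (u n) - x₀) + (((h : ℤ) * ⌊u n⌋ : ℤ) : ℝ) by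
      push_cast
      have := Int.self_sub_floor (u n)
      rw [← this]; ring]
    rw [ee_add_int]
  set E := s.filter (fun n => ⌊(H : ℝ) * Int.fract (u n)⌋₊ = V) with hE
  have h3 : (∑ n ∈ E, w n) * ((K : ℝ) ^ 2 / 2) ≤ K * W + K ^ 2 * (W / H) := by
    calc (∑ n ∈ E, w n) * ((K : ℝ) ^ 2 / 2) = ∑ n ∈ E, w n * ((K : ℝ) ^ 2 / 2) := by rw [sum_mul]
      _ ≤ ∑ n ∈ E, w n * G n := sum_le_sum fun n hn =>
          mul_le_mul_of_nonneg_left (h2 n hn) (hw n (mem_of_mem_filter n hn))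
      _ ≤ ∑ n ∈ s, w n * G n := sum_le_sum_of_subset_of_nonneg (filter_subset _ _) fun n hn _ =>
          mul_nonneg (hw n hn) (hG0 n)
      _ ≤ _ := h1
  have h4 : (H : ℝ) ≤ 4 * K := by exact_mod_cast hKH
  have h5 : K * W + K ^ 2 * (W / H) ≤ (10 * W / H) * ((K : ℝ) ^ 2 / 2) := by
    have e : (10 * W / H) * ((K : ℝ) ^ 2 / 2) - (K * W + K ^ 2 * (W / H)) = K * W / H * (4 * K - H) := by
      field_simp; ring
    have : 0 ≤ K * W / H * (4 * K - H) := mul_nonneg (by positivity) (by linarith)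
    linarith
  exact le_of_mul_le_mul_right (h3.trans h5) (by positivity)

/-- a set of values -/
theorem fejer_set (s : Finset ℕ) (w u : ℕ → ℝ) (hw : ∀ n ∈ s, 0 ≤ w n) (H : ℕ) (hH : 1 ≤ H)
    (hS : ∀ h : ℤ, h ≠ 0 → |h| < H → ‖SS s w u h‖ ≤ (∑ n ∈ s, w n) / H) (T : Finset ℕ) :
    ∑ n ∈ s.filter (fun n => ⌊(H : ℝ) * Int.fract (u n)⌋₊ ∈ T), w n ≤ T.card * (10 * (∑ n ∈ s, w n) / H) := by
  classical
  rw [← sum_fiberwise_of_maps_to (g := fun n => ⌊(H : ℝ) * Int.fract (u n)⌋₊) (t := T)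
    (fun n hn => (mem_filter.1 hn).2)]
  calc ∑ V ∈ T, ∑ n ∈ (s.filter (fun n => ⌊(H : ℝ) * Int.fract (u n)⌋₊ ∈ T)).filter
        (fun n => ⌊(H : ℝ) * Int.fract (u n)⌋₊ = V), w n
      ≤ ∑ _V ∈ T, 10 * (∑ n ∈ s, w n) / H := by
        refine sum_le_sum fun V _ => le_trans ?_ (fejer s w u hw H hH hS V)
        refine sum_le_sum_of_subset_of_nonneg ?_ fun n hn _ => hw n (mem_of_mem_filter n hn)
        intro n hn
        rw [mem_filter, mem_filter] at hn
        exact mem_filter.2 ⟨hn.1.1, hn.2⟩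
    _ = _ := by rw [sum_const, nsmul_eq_mul]

/-- the number of the digits `W` among the last `L` digits of `V` in base `B` -/
def occ (B W L V : ℕ) : ℕ := ((range L).filter (fun j => V / B ^ j % B = W)).card

lemma occ_succ {B W L : ℕ} (hB : 0 < B) (V d : ℕ) (hd : d < B) :
    occ B W (L + 1) (B * V + d) = (if d = W then 1 else 0) + occ B W L V := by
  unfold occ
  rw [card_filter, card_filter, sum_range_succ', add_comm]
  congr 1
  · rw [pow_zero, Nat.div_one, Nat.mul_add_mod, Nat.mod_eq_of_lt hd]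
  · refine sum_congr rfl fun j _ => ?_
    have : (B * V + d) / B ^ (j + 1) = V / B ^ j := by
      rw [pow_succ', ← Nat.div_div_eq_div_mul, Nat.mul_add_div hB, Nat.div_eq_of_lt hd, add_zero]
    rw [this]

lemma sum_range_mul_block {M : Type*} [AddCommMonoid M] (g : ℕ → M) (n B : ℕ) :
    ∑ V ∈ range (B * n), g V = ∑ q ∈ range n, ∑ d ∈ range B, g (B * q + d) := by
  induction n with
  | zero => simp
  | succ n ih => rw [Nat.mul_succ, sum_range_add, ih, sum_range_succ]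

lemma gen_occ {B W : ℕ} (hW : W < B) (L : ℕ) :
    ∑ V ∈ range (B ^ L), ((1 : ℝ) / 2) ^ occ B W L V = ((B : ℝ) - 1 / 2) ^ L := by
  have hB : 0 < B := by omega
  induction L with
  | zero => simp [occ]
  | succ L ih =>
    rw [pow_succ', sum_range_mul_block]
    have h1 : ∀ q ∈ range (B ^ L), ∑ d ∈ range B, ((1 : ℝ) / 2) ^ occ B W (L + 1) (B * q + d) =
        ((B : ℝ) - 1 / 2) * ((1 : ℝ) / 2) ^ occ B W L q := by
      intro q _
      have h2 : ∀ d ∈ range B, ((1 : ℝ) / 2) ^ occ B W (L + 1) (B * q + d) =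
          (1 - (if d = W then 1 / 2 else 0)) * ((1 : ℝ) / 2) ^ occ B W L q := by
        intro d hd
        rw [occ_succ hB q d (mem_range.1 hd), pow_add]
        split_ifs <;> norm_num
      rw [sum_congr rfl h2, ← sum_mul, sum_sub_distrib, sum_ite_eq' (range B) W (fun _ => (1 : ℝ) / 2),
        if_pos (mem_range.2 hW), sum_const, card_range, nsmul_eq_mul, mul_one]
    rw [sum_congr rfl h1, ← mul_sum, ih, pow_succ']

/-- few integers have few digits `W` -/
theorem count_few {B W : ℕ} (hW : W < B) (L m : ℕ) :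
    (((range (B ^ L)).filter (fun V => occ B W L V ≤ m)).card : ℝ) ≤ 2 ^ m * ((B : ℝ) - 1 / 2) ^ L := by
  have h1 : ∀ V ∈ (range (B ^ L)).filter (fun V => occ B W L V ≤ m), (1 : ℝ) ≤ 2 ^ m * (1 / 2) ^ occ B W L V := by
    intro V hV
    rw [mem_filter] at hV
    rw [one_div, inv_pow, ← div_eq_mul_inv, le_div_iff₀ (by positivity), one_mul]
    exact pow_le_pow_right₀ (by norm_num) hV.2
  calc (((range (B ^ L)).filter (fun V => occ B W L V ≤ m)).card : ℝ)
      = ∑ _V ∈ (range (B ^ L)).filter (fun V => occ B W L V ≤ m), (1 : ℝ) := by simp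
    _ ≤ ∑ V ∈ (range (B ^ L)).filter (fun V => occ B W L V ≤ m), 2 ^ m * (1 / 2) ^ occ B W L V := sum_le_sum h1
    _ ≤ ∑ V ∈ range (B ^ L), 2 ^ m * (1 / 2) ^ occ B W L V :=
        sum_le_sum_of_subset_of_nonneg (filter_subset _ _) fun _ _ _ => by positivity
    _ = _ := by rw [← mul_sum, gen_occ hW]

/-- the words behind the `i`-th digit of `u` -/
theorem stands_iff {b k : ℕ} (hb : 1 ≤ b) (W L i j : ℕ) (hj : j < L) (u : ℝ) :
    Stands b k W u (i + j * k) ↔
      ⌊(((b ^ k) ^ L : ℕ) : ℝ) * Int.fract ((b : ℝ) ^ i * u)⌋₊ / (b ^ k) ^ (L - 1 - j) % (b ^ k) = W := by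
  have hb0 : (0 : ℝ) < b := by exact_mod_cast hb
  set B : ℕ := b ^ k with hB
  have hB0 : 0 < B := Nat.pow_pos (by omega)
  have hBr : (0 : ℝ) < B := by exact_mod_cast hB0
  set y : ℝ := (b : ℝ) ^ i * u with hy
  unfold Stands
  have e1 : (b : ℝ) ^ (i + j * k + k) * u = ((B : ℝ) ^ (j + 1)) * y := by
    rw [hy, hB]; push_cast; ring
  have e2 : ⌊(B : ℝ) ^ (j + 1) * y⌋ = (B : ℤ) ^ (j + 1) * ⌊y⌋ + ⌊(B : ℝ) ^ (j + 1) * Int.fract y⌋ := by
    have : (B : ℝ) ^ (j + 1) * y = (((B : ℤ) ^ (j + 1) * ⌊y⌋ : ℤ) : ℝ) + (B : ℝ) ^ (j + 1) * Int.fract y := by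
      push_cast
      have := Int.floor_add_fract y
      nth_rewrite 1 [← this]
      ring
    rw [this, Int.floor_intCast_add]
  have e3 : ((b : ℤ) ^ k) = (B : ℤ) := by rw [hB]; push_cast; rfl
  have e4 : ⌊(B : ℝ) ^ (j + 1) * Int.fract y⌋ = ((⌊(B : ℝ) ^ (j + 1) * Int.fract y⌋₊ : ℕ) : ℤ) :=
    (Int.natCast_floor_eq_floor (by positivity)).symm
  have e5 : ⌊(B : ℝ) ^ (j + 1) * Int.fract y⌋₊ = ⌊((B ^ L : ℕ) : ℝ) * Int.fract y⌋₊ / B ^ (L - 1 - j) := by
    rw [← Nat.floor_div_natCast]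
    congr 1
    push_cast
    rw [eq_div_iff (by positivity)]
    have : (B : ℝ) ^ L = (B : ℝ) ^ (j + 1) * (B : ℝ) ^ (L - 1 - j) := by rw [← pow_add]; congr 1; omega
    rw [this]; ring
  rw [e1, e2, e3, e4, e5]
  have e6 : (((B : ℤ) ^ (j + 1) * ⌊y⌋ + ((⌊((B ^ L : ℕ) : ℝ) * Int.fract y⌋₊ / B ^ (L - 1 - j) : ℕ) : ℤ)) % (B : ℤ)) =
      ((⌊((B ^ L : ℕ) : ℝ) * Int.fract y⌋₊ / B ^ (L - 1 - j) % B : ℕ) : ℤ) := by
    rw [pow_succ', mul_assoc, Int.add_comm, Int.add_mul_emod_self_left]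
    push_cast
    rfl
  rw [e6]
  exact Nat.cast_inj

end Pool.Agent.N710.PW
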