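import Mathlib
import Pool.Agent.R486.PD.MinorArcs

/-!
# Exponential sums over polynomial values at primes: power saving

The proof of `Pool.Agent.R486.PD.minorArcs` (helper486, starting files) with an arbitrary parameter `L` in place of
`log N`: if `∑_{n ≤ N} Λ(n) e(θ h(n))` has modulus at least `N / L`, `L ≥ log N`, then `θ` has a rational approximation
with denominator at most `L ^ C` and error `L ^ C / N ^ deg h`.
-/

set_option autoImplicit false

namespace Pool.Agent.N710.PW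

open Finset Polynomial
open Pool.Agent.H807R2.Dav (ee norm_ee)
open Pool.Agent.R361.MA
open Pool.Agent.R486.PD (SLam Near near_of)

/-- a dyadic block with a large sum -/
lemma block (h : ℤ[X]) (θ : ℝ) (N : ℕ) (L : ℝ) (hL : Real.log N ≤ L) (hL4 : 4 ≤ L) (hN : 1 ≤ N)
    (hS : N / L ≤ ‖SLam h N θ‖) :
    ∃ N₁ N' : ℕ, 1 ≤ N₁ ∧ N₁ ≤ N' ∧ N' ≤ 2 * N₁ ∧ N' ≤ N ∧
      (N : ℝ) ≤ 2 * L ^ 2 * ‖∑ n ∈ Ioc N₁ N', ((ArithmeticFunction.vonMangoldt n : ℝ) : ℂ) *
        ee (θ * ((h.eval (n : ℤ) : ℤ) : ℝ))‖ := by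
  have hL0 : 0 < L := by linarith
  have hN0 : (0 : ℝ) < N := by exact_mod_cast hN
  set I := Nat.log 2 N + 1 with hI
  have hI2 : N < 2 ^ I := Nat.lt_pow_succ_log_self (by norm_num) _
  have hIL : (I : ℝ) ≤ 2 * L := by
    have h2 : (Nat.log 2 N : ℝ) * Real.log 2 ≤ Real.log N := by
      have h3 : (2 : ℝ) ^ Nat.log 2 N ≤ N := by exact_mod_cast Nat.pow_log_le_self 2 (by omega)
      have h4 := Real.log_le_log (by positivity) h3
      rwa [Real.log_pow] at h4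
    have h4 := Real.log_two_gt_d9
    have h5 : (0 : ℝ) ≤ Nat.log 2 N := Nat.cast_nonneg _
    rw [hI]; push_cast
    replace h2 := h2.trans hL
    nlinarith
  set G : ℕ → ℂ := fun n => ((ArithmeticFunction.vonMangoldt n : ℝ) : ℂ) * ee (θ * ((h.eval (n : ℤ) : ℤ) : ℝ)) with hG
  set F : ℕ → ℂ := fun n => if n ≤ N then G n else 0 with hF
  have hSF : SLam h N θ = ∑ n ∈ Ioc 1 (2 ^ I), F n := by
    have h1 : Icc 1 N = insert 1 (Ioc 1 N) := by
      ext n; rw [mem_insert, mem_Icc, mem_Ioc]; omega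
    have h2 : (1 : ℕ) ∉ Ioc 1 N := by rw [mem_Ioc]; omega
    have h3 : (Ioc 1 (2 ^ I)).filter (fun n => n ≤ N) = Ioc 1 N := by
      ext n; rw [mem_filter, mem_Ioc, mem_Ioc]; omega
    unfold SLam
    rw [h1, sum_insert h2, ArithmeticFunction.vonMangoldt_apply_one]
    simp only [hF]
    rw [← sum_filter, h3]
    simp [hG]
  rw [Pool.Agent.H373R2.T3.dyadic_sum] at hSF
  have hblk : ∀ i : ℕ, ∑ m ∈ Ioc (2 ^ i) (2 * 2 ^ i), F m = ∑ m ∈ Ioc (2 ^ i) (min (2 * 2 ^ i) N), G m := by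
    intro i
    simp only [hF]
    rw [← sum_filter]
    apply sum_congr _ fun _ _ => rfl
    ext n; rw [mem_filter, mem_Ioc, mem_Ioc, le_min_iff]; tauto
  obtain ⟨i, hi, hbi⟩ : ∃ i ∈ range I, N / (2 * L ^ 2) ≤ ‖∑ m ∈ Ioc (2 ^ i) (min (2 * 2 ^ i) N), G m‖ := by
    by_contra hcon
    push Not at hcon
    have h1 : ‖SLam h N θ‖ < N / L := by
      rw [hSF]
      calc ‖∑ i ∈ range I, ∑ m ∈ Ioc (2 ^ i) (2 * 2 ^ i), F m‖ ≤ ∑ i ∈ range I, ‖∑ m ∈ Ioc (2 ^ i) (2 * 2 ^ i), F m‖ :=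
            norm_sum_le _ _
        _ < ∑ _i ∈ range I, (N / (2 * L ^ 2) : ℝ) := by
            apply sum_lt_sum_of_nonempty
            · exact ⟨0, mem_range.2 (by omega)⟩
            · intro i hi
              rw [hblk]; exact hcon i hi
        _ = I * (N / (2 * L ^ 2)) := by rw [sum_const, card_range, nsmul_eq_mul]
        _ ≤ (2 * L) * (N / (2 * L ^ 2)) := by gcongr
        _ = _ := by field_simp
    linarith
  have hiN : 2 ^ i ≤ N := by
    rw [mem_range, hI] at hi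
    exact (Nat.pow_le_pow_right (by norm_num) (by omega)).trans (Nat.pow_log_le_self 2 (by omega))
  refine ⟨2 ^ i, min (2 * 2 ^ i) N, Nat.one_le_two_pow, ?_, min_le_left _ _, min_le_right _ _, ?_⟩
  · rw [le_min_iff]; omega
  · rw [div_le_iff₀ (by positivity)] at hbi
    linarith

theorem minorPow (h : ℤ[X]) (hd : 1 ≤ h.natDegree) : ∃ C L₀ : ℕ, ∀ (N : ℕ) (L : ℝ), 1 ≤ N → Real.log N ≤ L → (L₀ : ℝ) ≤ L →
    L ^ C ≤ N → ∀ θ : ℝ, N / L ≤ ‖SLam h N θ‖ → Near h.natDegree N (L ^ C) θ := by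
  obtain ⟨cI, mI, hcI, hI⟩ := typeI h hd
  obtain ⟨c, m, hc, hII⟩ := typeII h hd
  set d := h.natDegree with hdd
  set C : ℕ := 1 + (32 * m + 6) * (mI + 1) + 17 * m + 4 * d with hC
  refine ⟨C, 1000 + 3 * c * 4 ^ m + cI, fun N L a3 hlogL hL hLC θ hS => ?_⟩
  have hN0 : (0 : ℝ) < N := by exact_mod_cast a3
  push_cast at hL
  have hc1 : (1 : ℝ) ≤ c := by exact_mod_cast hc
  have hcI1 : (1 : ℝ) ≤ cI := by exact_mod_cast hcI
  have h4m : (1 : ℝ) ≤ 4 ^ m := one_le_pow₀ (by norm_num)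
  have hc4 : (1 : ℝ) ≤ c * 4 ^ m := one_le_mul_of_one_le_of_one_le hc1 h4m
  have hL1000 : 1000 ≤ L := by nlinarith
  have hLc : 3 * c * 4 ^ m ≤ L := by nlinarith
  have hLcI : (cI : ℝ) ≤ L := by nlinarith
  have hL1 : 1 ≤ L := by linarith
  have hL0 : 0 < L := by linarith
  have hLN : L ^ (32 * m + 6) ≤ N := by
    refine le_trans (pow_le_pow_right₀ hL1 ?_) hLC
    have : (32 * m + 6) * (mI + 1) = (32 * m + 6) * mI + (32 * m + 6) := by ring
    omega
  obtain ⟨N₁, N', hN₁, hN₁N', hN'2, hN'N, hblk⟩ := block h θ N L hlogL (by linarith) a3 hS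
  set E : ℕ → ℂ := fun n => ee (θ * ((h.eval (n : ℤ) : ℤ) : ℝ)) with hE
  have hN₁0 : (0 : ℝ) < N₁ := by exact_mod_cast hN₁
  have hN₁N : N₁ ≤ N := hN₁N'.trans hN'N
  have hN₁Nr : (N₁ : ℝ) ≤ N := by exact_mod_cast hN₁N
  -- trivial bound
  have htriv : ‖∑ n ∈ Ioc N₁ N', ((ArithmeticFunction.vonMangoldt n : ℝ) : ℂ) * E n‖ ≤ N₁ * L := by
    calc ‖∑ n ∈ Ioc N₁ N', ((ArithmeticFunction.vonMangoldt n : ℝ) : ℂ) * E n‖ ≤ ∑ n ∈ Ioc N₁ N', L := by
          refine (norm_sum_le _ _).trans (sum_le_sum fun n hn => ?_)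
          rw [mem_Ioc] at hn
          rw [norm_mul, Complex.norm_real, Real.norm_eq_abs, abs_of_nonneg ArithmeticFunction.vonMangoldt_nonneg]
          simp only [hE]
          rw [norm_ee, mul_one]
          refine ArithmeticFunction.vonMangoldt_le_log.trans ?_
          exact (Real.log_le_log (by exact_mod_cast (by omega : 0 < n)) (by exact_mod_cast (by omega : n ≤ N))).trans hlogL
      _ = ((N' - N₁ : ℕ) : ℝ) * L := by rw [sum_const, Nat.card_Ioc, nsmul_eq_mul]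
      _ ≤ _ := by
          apply mul_le_mul_of_nonneg_right _ hL0.le
          exact_mod_cast (by omega : N' - N₁ ≤ N₁)
  have hNN₁ : (N : ℝ) ≤ 2 * L ^ 3 * N₁ := by
    calc (N : ℝ) ≤ 2 * L ^ 2 * ‖∑ n ∈ Ioc N₁ N', ((ArithmeticFunction.vonMangoldt n : ℝ) : ℂ) * E n‖ := hblk
      _ ≤ 2 * L ^ 2 * (N₁ * L) := by gcongr
      _ = _ := by ring
  -- parameters
  set v : ℝ := 4 * L ^ 16 with hv
  have hv1 : 1 ≤ v := by
    have : 1 ≤ L ^ 16 := one_le_pow₀ hL1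
    linarith
  have hcv1 : 1 ≤ c * v ^ m := one_le_mul_of_one_le_of_one_le hc1 (one_le_pow₀ hv1)
  set U : ℕ := ⌈2 * (c * v ^ m)⌉₊ with hU
  have hU1 : 2 * (c * v ^ m) ≤ U := Nat.le_ceil _
  have hU2 : (U : ℝ) ≤ L ^ (16 * m + 1) := by
    have h1 : (U : ℝ) < 2 * (c * v ^ m) + 1 := Nat.ceil_lt_add_one (by positivity)
    calc (U : ℝ) ≤ 3 * (c * v ^ m) := by linarith
      _ = (3 * c * 4 ^ m) * L ^ (16 * m) := by rw [hv, mul_pow, ← pow_mul]; ring
      _ ≤ L * L ^ (16 * m) := by gcongr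
      _ = _ := by ring
  have hUpos : 1 ≤ U := by
    have : (1 : ℝ) ≤ U := by linarith
    exact_mod_cast this
  have hUr : (1 : ℝ) ≤ U := by exact_mod_cast hUpos
  have hU0 : (0 : ℝ) < U := by linarith
  have hUU : ((U * U : ℕ) : ℝ) ≤ L ^ (32 * m + 2) := by
    push_cast
    calc (U : ℝ) * U ≤ L ^ (16 * m + 1) * L ^ (16 * m + 1) := by gcongr
      _ = _ := by rw [← pow_add]; congr 1; ring
  have hUUN : U * U ≤ N₁ := by
    have h1 : ((U * U : ℕ) : ℝ) * (2 * L ^ 3) ≤ N₁ * (2 * L ^ 3) := by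
      calc ((U * U : ℕ) : ℝ) * (2 * L ^ 3) ≤ L ^ (32 * m + 2) * (L * L ^ 3) := by
            gcongr
            linarith
        _ = L ^ (32 * m + 6) := by rw [← pow_succ', ← pow_add]
        _ ≤ N := hLN
        _ ≤ _ := by linarith
    have h2 := le_of_mul_le_mul_right h1 (by positivity)
    exact_mod_cast h2
  have h2L3 : (1 : ℝ) ≤ 2 * L ^ 3 := by
    have : 1 ≤ L ^ 3 := one_le_pow₀ hL1
    linarith
  have h2L4 : (2 * L ^ 3) ^ d ≤ L ^ (4 * d) := by
    rw [pow_mul]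
    apply pow_le_pow_left₀ (by positivity)
    calc 2 * L ^ 3 ≤ L * L ^ 3 := by gcongr; linarith
      _ = _ := by ring
  by_contra hnear
  -- the parameter of the type I sums
  set v₁ : ℝ := ((U * U : ℕ) : ℝ) * L ^ 4 with hv₁
  have hUU1 : (1 : ℝ) ≤ ((U * U : ℕ) : ℝ) := by exact_mod_cast Nat.mul_pos hUpos hUpos
  have hL41 : 1 ≤ L ^ 4 := one_le_pow₀ hL1
  have hv₁1 : 1 ≤ v₁ := one_le_mul_of_one_le_of_one_le hUU1 hL41
  have hv₁2 : v₁ ≤ L ^ (32 * m + 6) := by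
    calc v₁ ≤ L ^ (32 * m + 2) * L ^ 4 := by rw [hv₁]; gcongr
      _ = _ := by rw [← pow_add]
  have hZI : cI * v₁ ^ mI * (2 * L ^ 3) ^ d ≤ L ^ C := by
    calc cI * v₁ ^ mI * (2 * L ^ 3) ^ d ≤ L * (L ^ (32 * m + 6)) ^ mI * L ^ (4 * d) := by gcongr
      _ = L ^ (1 + (32 * m + 6) * mI + 4 * d) := by rw [← pow_mul, pow_add, pow_add, pow_one]
      _ ≤ _ := pow_le_pow_right₀ hL1 (by
          have : (32 * m + 6) * (mI + 1) = (32 * m + 6) * mI + (32 * m + 6) := by ring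
          omega)
  have hZII : c * v ^ m * (2 * L ^ 3) ^ d ≤ L ^ C := by
    have hcL : (c : ℝ) ≤ L := by nlinarith
    calc c * v ^ m * (2 * L ^ 3) ^ d ≤ L * (L ^ 17) ^ m * L ^ (4 * d) := by
          gcongr
          calc v ≤ L * L ^ 16 := by rw [hv]; gcongr; linarith
            _ = _ := by ring
      _ = L ^ (1 + 17 * m + 4 * d) := by rw [← pow_mul, pow_add, pow_add, pow_one]
      _ ≤ _ := pow_le_pow_right₀ hL1 (by omega)
  set R : ℝ := N₁ / L ^ 8 with hR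
  have hR0 : 0 < R := by positivity
  have key := Pool.Agent.H373R2.T7.vaughan_gen E N₁ N' U hN₁ hN₁N' hN'2 hUpos hUUN (fun _ => N₁ / v₁) R hR0.le
    (fun _ => by positivity)
    (by
      intro k hk b hb
      rw [mem_Icc] at hk
      by_contra hcon
      push Not at hcon
      rw [div_lt_iff₀ (by positivity)] at hcon
      have hkv : (k : ℝ) ≤ v₁ := by
        calc (k : ℝ) ≤ ((U * U : ℕ) : ℝ) := by exact_mod_cast hk.2
          _ = ((U * U : ℕ) : ℝ) * 1 := by ring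
          _ ≤ _ := by rw [hv₁]; gcongr
      obtain ⟨q, hq1, hq2, a, ha⟩ := hI θ v₁ N₁ N' k b hv₁1 hN₁ hk.1 hkv hN'2 hb (by
        rw [mul_comm]; exact hcon)
      exact hnear (near_of C hq1 hq2 ha hN₁ a3 hNN₁ hL1 hZI))
    (by
      intro a b A₂ B₂ hA₂ hB₂ M K hM hK hUM hUK hMK ha hb
      have hM0 : (0 : ℝ) < M := by exact_mod_cast hM
      have hK0 : (0 : ℝ) < K := by exact_mod_cast hK
      have hMr : c * v ^ m ≤ M := by
        have : (U : ℝ) < 2 * M := by exact_mod_cast hUM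
        linarith
      have hKr : c * v ^ m ≤ K := by
        have : (U : ℝ) < 2 * K := by exact_mod_cast hUK
        linarith
      have hMK2 : (M : ℝ) * K ≤ 2 * N₁ := by exact_mod_cast hMK.trans hN'2
      have hcs := bil_cs (Ioc M (2 * M)) (Ioc K (2 * K)) a b (WW h θ N₁ N') (A₂ * M) (B₂ * K) (R ^ 2 / (M * K)) ha hb
        (by positivity) (by
          intro y₀ hy₀
          by_contra hcon
          push Not at hcon
          have h1 : (M : ℝ) * K < v * ∑ y ∈ Ioc K (2 * K),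
              ‖∑ x ∈ Ioc M (2 * M), WW h θ N₁ N' x y₀ * (starRingEnd ℂ) (WW h θ N₁ N' x y)‖ := by
            refine lt_of_le_of_lt ?_ (mul_lt_mul_of_pos_left hcon (by positivity))
            rw [mul_div_assoc', le_div_iff₀ (by positivity), hv, hR]
            have e : 4 * L ^ 16 * (N₁ / L ^ 8) ^ 2 = (2 * N₁ : ℝ) * (2 * N₁) := by field_simp; ring
            rw [e]
            exact mul_le_mul hMK2 hMK2 (by positivity) (by positivity)
          obtain ⟨q, hq1, hq2, a', ha'⟩ := hII θ v N₁ N' M K y₀ hv1 hN₁ hMr hKr hy₀ h1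
          exact hnear (near_of C hq1 hq2 ha' hN₁ a3 hNN₁ hL1 hZII))
      refine hcs.trans (le_of_eq ?_)
      field_simp)
  have hlg : 1 + Real.log (4 * N₁) ≤ 2 * L := by
    have h1 : Real.log (4 * N₁) = Real.log 4 + Real.log N₁ := Real.log_mul (by norm_num) hN₁0.ne'
    have h2 : Real.log N₁ ≤ L := (Real.log_le_log hN₁0 hN₁Nr).trans hlogL
    have h3 : Real.log 4 ≤ 3 := by
      have := Real.log_le_sub_one_of_pos (show (0 : ℝ) < 4 by norm_num)
      linarith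
    linarith
  have hlg0 : 0 ≤ 1 + Real.log (4 * N₁) := by
    have : 0 ≤ Real.log (4 * (N₁ : ℝ)) := Real.log_nonneg (by
      have : (1 : ℝ) ≤ N₁ := by exact_mod_cast hN₁
      linarith)
    linarith
  have hsum : ∑ _k ∈ Icc 1 (U * U), (N₁ / v₁ : ℝ) = N₁ / L ^ 4 := by
    rw [sum_const, Nat.card_Icc, nsmul_eq_mul, Nat.add_sub_cancel, hv₁]
    field_simp
  rw [hsum] at key
  have hfin : ‖∑ n ∈ Ioc N₁ N', ((ArithmeticFunction.vonMangoldt n : ℝ) : ℂ) * E n‖ ≤ 262 * N₁ / L ^ 3 := by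
    calc _ ≤ _ := key
      _ ≤ 8 * (2 * L) ^ 5 * R + 3 * (2 * L) * (N₁ / L ^ 4) := by gcongr
      _ = _ := by rw [hR]; field_simp; ring
  have h1 : (N : ℝ) ≤ 524 * N₁ / L := by
    calc (N : ℝ) ≤ 2 * L ^ 2 * (262 * N₁ / L ^ 3) := hblk.trans (by gcongr)
      _ = _ := by field_simp; ring
  have h2 : 524 * N₁ / L < (N₁ : ℝ) := by
    rw [div_lt_iff₀ hL0]
    nlinarith
  linarith

end Pool.Agent.N710.PW
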