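import Mathlib
import Pool.Agent.N710.PW.Core

/-!
# Good places
-/

set_option autoImplicit false

namespace Pool.Agent.N710.PW

open Finset Filter
open Pool.Agent.H807R2.Dav (ee norm_ee ee_add ee_zero ee_int ee_add_int ee_eq)

/-- The exponential sums of the weighted family `u` at the integers `t` can only be large if a small multiple of `t α` is
near to an integer. -/
def WeylFam (s : Finset ℕ) (w u : ℕ → ℝ) (α : ℝ) (A : ℕ) (v₀ M : ℝ) : Prop :=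
  ∀ t : ℤ, t ≠ 0 → ∀ v : ℝ, v₀ ≤ v → 1 ≤ v → (∑ n ∈ s, w n) / v < ‖SS s w u t‖ →
    ∃ q : ℕ, 1 ≤ q ∧ (q : ℝ) ≤ A * v ^ A ∧ ∃ a : ℤ, |q * (t * α) - a| ≤ A * v ^ A / M

/-- the place `i` is good: the exponential sums at the frequencies `h b ^ i`, `0 < |h| < H`, are small. -/
def Good (s : Finset ℕ) (w u : ℕ → ℝ) (b H i : ℕ) : Prop :=
  ∀ h : ℤ, h ≠ 0 → |h| < H → ‖SS s w (fun n => (b : ℝ) ^ i * u n) h‖ ≤ (∑ n ∈ s, w n) / H

lemma bad {s : Finset ℕ} {w u : ℕ → ℝ} {α : ℝ} {A : ℕ} {v₀ M : ℝ} (_hM : 0 < M) (hF : WeylFam s w u α A v₀ M)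
    {b H i : ℕ} (hb : 1 ≤ b) (hH : 1 ≤ H) (hv : v₀ ≤ H) (h : ¬ Good s w u b H i) :
    ∃ q : ℕ, 1 ≤ q ∧ (q : ℝ) ≤ A * (H : ℝ) ^ (A + 1) ∧ ∃ a : ℤ, |q * ((b : ℝ) ^ i * α) - a| ≤ A * (H : ℝ) ^ A / M := by
  unfold Good at h
  push Not at h
  obtain ⟨h, h0, hlt, hbig⟩ := h
  have hH1 : (1 : ℝ) ≤ H := by exact_mod_cast hH
  have hb0 : (b : ℤ) ≠ 0 := by exact_mod_cast (by omega : b ≠ 0)
  have e : SS s w (fun n => (b : ℝ) ^ i * u n) h = SS s w u ((h * (b : ℤ) ^ i : ℤ) : ℝ) := by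
    unfold SS
    refine sum_congr rfl fun n _ => ?_
    congr 2
    push_cast
    ring
  rw [e] at hbig
  obtain ⟨q, hq1, hq2, a, ha⟩ := hF (h * (b : ℤ) ^ i) (mul_ne_zero h0 (pow_ne_zero _ hb0)) H hv hH1 hbig
  have hA : (0 : ℝ) ≤ A := Nat.cast_nonneg A
  have hn1 : 1 ≤ h.natAbs := Int.natAbs_pos.2 h0
  have hn2 : (h.natAbs : ℝ) ≤ H := by
    have : (h.natAbs : ℤ) < H := by rw [Int.natCast_natAbs]; exact hlt
    exact_mod_cast this.le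
  refine ⟨q * h.natAbs, Nat.mul_pos hq1 hn1, ?_, if 0 ≤ h then a else -a, ?_⟩
  · push_cast
    calc (q : ℝ) * h.natAbs ≤ (A * (H : ℝ) ^ A) * H := by gcongr
      _ = _ := by ring
  · refine le_trans (le_of_eq ?_) ha
    push_cast
    split_ifs with hs
    · have : ((h.natAbs : ℕ) : ℝ) = (h : ℝ) := by
        rw [← Int.cast_natCast, Int.natCast_natAbs, abs_of_nonneg hs]
      rw [this]
      congr 1
      ring
    · have : ((h.natAbs : ℕ) : ℝ) = -(h : ℝ) := by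
        rw [← Int.cast_natCast, Int.natCast_natAbs, abs_of_neg (by omega)]
        push_cast
        ring
      rw [this, ← abs_neg]
      congr 1
      push_cast
      ring

/-- a chain of bad places -/
lemma chain {α Q η : ℝ} {b : ℕ} (hb : 1 ≤ b) (hη : 0 ≤ η) (hQη : (b + 1) * (Q * η) < 1) (i₀ : ℕ) (q : ℕ → ℕ)
    (a : ℕ → ℤ) (n : ℕ)
    (h : ∀ i, i₀ ≤ i → i ≤ i₀ + n → 1 ≤ q i ∧ (q i : ℝ) ≤ Q ∧ |q i * ((b : ℝ) ^ i * α) - a i| ≤ η) :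
    a (i₀ + n) * q i₀ = (b : ℤ) ^ n * a i₀ * q (i₀ + n) := by
  induction n with
  | zero => simp
  | succ n ih =>
    have h1 := ih fun i hi hi' => h i hi (by omega)
    obtain ⟨p1, p2, p3⟩ := h (i₀ + n) (by omega) (by omega)
    obtain ⟨r1, r2, r3⟩ := h (i₀ + n + 1) (by omega) (by omega)
    have hb0 : (0 : ℝ) < b := by exact_mod_cast hb
    have hQ0 : (0 : ℝ) ≤ Q := le_trans (Nat.cast_nonneg _) p2
    have hint : q (i₀ + n) * a (i₀ + n + 1) = b * a (i₀ + n) * q (i₀ + n + 1) := by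
      have e : ((q (i₀ + n) * a (i₀ + n + 1) - b * a (i₀ + n) * q (i₀ + n + 1) : ℤ) : ℝ) =
          b * q (i₀ + n + 1) * (q (i₀ + n) * ((b : ℝ) ^ (i₀ + n) * α) - a (i₀ + n)) -
          q (i₀ + n) * (q (i₀ + n + 1) * ((b : ℝ) ^ (i₀ + n + 1) * α) - a (i₀ + n + 1)) := by
        push_cast
        ring
      have h2 : |((q (i₀ + n) * a (i₀ + n + 1) - b * a (i₀ + n) * q (i₀ + n + 1) : ℤ) : ℝ)| < 1 := by
        rw [e]
        calc |b * q (i₀ + n + 1) * (q (i₀ + n) * ((b : ℝ) ^ (i₀ + n) * α) - a (i₀ + n)) -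
              q (i₀ + n) * (q (i₀ + n + 1) * ((b : ℝ) ^ (i₀ + n + 1) * α) - a (i₀ + n + 1))|
            ≤ |b * q (i₀ + n + 1) * (q (i₀ + n) * ((b : ℝ) ^ (i₀ + n) * α) - a (i₀ + n))| +
              |q (i₀ + n) * (q (i₀ + n + 1) * ((b : ℝ) ^ (i₀ + n + 1) * α) - a (i₀ + n + 1))| := abs_sub _ _
          _ = b * q (i₀ + n + 1) * |q (i₀ + n) * ((b : ℝ) ^ (i₀ + n) * α) - a (i₀ + n)| +
              q (i₀ + n) * |q (i₀ + n + 1) * ((b : ℝ) ^ (i₀ + n + 1) * α) - a (i₀ + n + 1)| := by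
            simp only [abs_mul, Nat.abs_cast]
          _ ≤ b * Q * η + Q * η := by gcongr
          _ = (b + 1) * (Q * η) := by ring
          _ < 1 := hQη
      have h3 : |q (i₀ + n) * a (i₀ + n + 1) - b * a (i₀ + n) * q (i₀ + n + 1)| < (1 : ℤ) := by
        exact_mod_cast h2
      have h4 := Int.abs_lt_one_iff.1 h3
      omega
    have hq0 : (q (i₀ + n) : ℤ) ≠ 0 := by exact_mod_cast (by omega : q (i₀ + n) ≠ 0)
    apply mul_right_cancel₀ hq0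
    rw [← Nat.add_assoc]
    calc a (i₀ + n + 1) * q i₀ * q (i₀ + n) = (q (i₀ + n) * a (i₀ + n + 1)) * q i₀ := by ring
      _ = (b * a (i₀ + n) * q (i₀ + n + 1)) * q i₀ := by rw [hint]
      _ = b * (a (i₀ + n) * q i₀) * q (i₀ + n + 1) := by ring
      _ = b * ((b : ℤ) ^ n * a i₀ * q (i₀ + n)) * q (i₀ + n + 1) := by rw [h1]
      _ = _ := by ring

/-- a chain of bad places gives a good rational approximation -/
lemma chain_approx {α Q η : ℝ} {b : ℕ} (hb : 2 ≤ b) (hη : 0 ≤ η) (hQη : (b + 1) * (Q * η) < 1) (i₀ n : ℕ)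
    (h : ∀ i, i₀ ≤ i → i ≤ i₀ + n → ∃ q : ℕ, 1 ≤ q ∧ (q : ℝ) ≤ Q ∧ ∃ a : ℤ, |q * ((b : ℝ) ^ i * α) - a| ≤ η) :
    ∃ q : ℕ, 1 ≤ q ∧ (q : ℝ) ≤ Q ∧ ∃ a : ℤ, |α - a / (q * (b : ℝ) ^ i₀)| ≤ η / (b : ℝ) ^ (i₀ + n) := by
  classical
  have hb0 : (0 : ℝ) < b := by exact_mod_cast (by omega : 0 < b)
  set q : ℕ → ℕ := fun i => if hi : i₀ ≤ i ∧ i ≤ i₀ + n then (h i hi.1 hi.2).choose else 1 with hq
  set a : ℕ → ℤ := fun i => if hi : i₀ ≤ i ∧ i ≤ i₀ + n then (h i hi.1 hi.2).choose_spec.2.2.choose else 1 with ha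
  have key : ∀ i, i₀ ≤ i → i ≤ i₀ + n → 1 ≤ q i ∧ (q i : ℝ) ≤ Q ∧ |q i * ((b : ℝ) ^ i * α) - a i| ≤ η := by
    intro i h1 h2
    have hi : i₀ ≤ i ∧ i ≤ i₀ + n := ⟨h1, h2⟩
    simp only [hq, ha, dif_pos hi]
    exact ⟨(h i hi.1 hi.2).choose_spec.1, (h i hi.1 hi.2).choose_spec.2.1, (h i hi.1 hi.2).choose_spec.2.2.choose_spec⟩
  have hc := chain (by omega : 1 ≤ b) hη hQη i₀ q a n key
  obtain ⟨p1, p2, p3⟩ := key i₀ le_rfl (by omega)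
  obtain ⟨r1, r2, r3⟩ := key (i₀ + n) (by omega) le_rfl
  refine ⟨q i₀, p1, p2, a i₀, ?_⟩
  have hq0 : (0 : ℝ) < q i₀ := by exact_mod_cast p1
  have hqn : (1 : ℝ) ≤ q (i₀ + n) := by exact_mod_cast r1
  have hqn0 : (0 : ℝ) < q (i₀ + n) := by linarith
  have hc' : (a (i₀ + n) : ℝ) * q i₀ = (b : ℝ) ^ n * a i₀ * q (i₀ + n) := by exact_mod_cast hc
  have e : α - a i₀ / (q i₀ * (b : ℝ) ^ i₀) =
      (q (i₀ + n) * ((b : ℝ) ^ (i₀ + n) * α) - a (i₀ + n)) / (q (i₀ + n) * (b : ℝ) ^ (i₀ + n)) := by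
    have h1 : (a i₀ : ℝ) / (q i₀ * (b : ℝ) ^ i₀) = a (i₀ + n) / (q (i₀ + n) * (b : ℝ) ^ (i₀ + n)) := by
      rw [div_eq_div_iff (by positivity) (by positivity), pow_add]
      linear_combination -(b : ℝ) ^ i₀ * hc'
    rw [h1]
    field_simp
  rw [e, abs_div, abs_of_pos (by positivity : (0 : ℝ) < q (i₀ + n) * (b : ℝ) ^ (i₀ + n))]
  calc |q (i₀ + n) * ((b : ℝ) ^ (i₀ + n) * α) - a (i₀ + n)| / (q (i₀ + n) * (b : ℝ) ^ (i₀ + n))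
      ≤ η / (q (i₀ + n) * (b : ℝ) ^ (i₀ + n)) := by gcongr
    _ ≤ η / (1 * (b : ℝ) ^ (i₀ + n)) := by gcongr
    _ = _ := by rw [one_mul]

/-- there are arbitrarily large good places -/
theorem good_inf {s : Finset ℕ} {w u : ℕ → ℝ} {α : ℝ} {A : ℕ} {v₀ M : ℝ} (hM : 0 < M) (hF : WeylFam s w u α A v₀ M)
    (hα : Irrational α) {b H : ℕ} (hb : 2 ≤ b) (hH : 1 ≤ H) (hv : v₀ ≤ H)
    (hbig : (b + 1) * ((A * (H : ℝ) ^ (A + 1)) * (A * (H : ℝ) ^ A / M)) < 1) (i₀ : ℕ) :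
    ∃ i, i₀ ≤ i ∧ Good s w u b H i := by
  by_contra hcon
  push Not at hcon
  have hb0 : (0 : ℝ) < b := by exact_mod_cast (by omega : 0 < b)
  have hb1 : (1 : ℝ) < b := by exact_mod_cast (by omega : 1 < b)
  set η : ℝ := A * (H : ℝ) ^ A / M with hη
  set Q : ℝ := A * (H : ℝ) ^ (A + 1) with hQ
  have hη0 : 0 ≤ η := by positivity
  have h1 : ∀ i, i₀ ≤ i → ∃ q : ℕ, 1 ≤ q ∧ (q : ℝ) ≤ Q ∧ ∃ a : ℤ, |q * ((b : ℝ) ^ i * α) - a| ≤ η :=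
    fun i hi => bad hM hF (by omega) hH hv (hcon i hi)
  classical
  choose! q hq1 hq2 a ha using h1
  have hc := fun n => chain (by omega : 1 ≤ b) hη0 hbig i₀ q a n fun i h1 _ => ⟨hq1 i h1, hq2 i h1, ha i h1⟩
  -- the rational number
  have hq0 : (0 : ℝ) < q i₀ := by exact_mod_cast hq1 i₀ le_rfl
  have h2 : ∀ n : ℕ, |α - a i₀ / (q i₀ * (b : ℝ) ^ i₀)| ≤ η / (b : ℝ) ^ (i₀ + n) := by
    intro n
    have hqn : (1 : ℝ) ≤ q (i₀ + n) := by exact_mod_cast hq1 (i₀ + n) (by omega)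
    have hqn0 : (0 : ℝ) < q (i₀ + n) := by linarith
    have hc' : (a (i₀ + n) : ℝ) * q i₀ = (b : ℝ) ^ n * a i₀ * q (i₀ + n) := by exact_mod_cast hc n
    have e : α - a i₀ / (q i₀ * (b : ℝ) ^ i₀) =
        (q (i₀ + n) * ((b : ℝ) ^ (i₀ + n) * α) - a (i₀ + n)) / (q (i₀ + n) * (b : ℝ) ^ (i₀ + n)) := by
      have h1 : (a i₀ : ℝ) / (q i₀ * (b : ℝ) ^ i₀) = a (i₀ + n) / (q (i₀ + n) * (b : ℝ) ^ (i₀ + n)) := by
        rw [div_eq_div_iff (by positivity) (by positivity), pow_add]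
        linear_combination -(b : ℝ) ^ i₀ * hc'
      rw [h1]
      field_simp
    rw [e, abs_div, abs_of_pos (by positivity : (0 : ℝ) < q (i₀ + n) * (b : ℝ) ^ (i₀ + n))]
    have := ha (i₀ + n) (by omega)
    calc |q (i₀ + n) * ((b : ℝ) ^ (i₀ + n) * α) - a (i₀ + n)| / (q (i₀ + n) * (b : ℝ) ^ (i₀ + n))
        ≤ η / (q (i₀ + n) * (b : ℝ) ^ (i₀ + n)) := by gcongr
      _ ≤ η / (1 * (b : ℝ) ^ (i₀ + n)) := by gcongr
      _ = _ := by rw [one_mul]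
  have h3 : |α - a i₀ / (q i₀ * (b : ℝ) ^ i₀)| ≤ 0 := by
    apply ge_of_tendsto' (f := fun n : ℕ => η / (b : ℝ) ^ (i₀ + n)) (x := atTop) _ h2
    apply Tendsto.div_atTop tendsto_const_nhds
    exact (tendsto_pow_atTop_atTop_of_one_lt hb1).comp (tendsto_atTop_mono (fun n => Nat.le_add_left n i₀) tendsto_id)
  have h4 : α = a i₀ / (q i₀ * (b : ℝ) ^ i₀) := by
    have := abs_nonpos_iff.1 h3
    linarith
  apply hα
  refine ⟨(a i₀ : ℚ) / (q i₀ * (b : ℚ) ^ i₀), ?_⟩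
  rw [h4]
  push_cast
  rfl

/-- good places exist in every interval `[i₀, μ (i₀ + r + 1)]` for a number which is not a Liouville number -/
theorem good_near {s : Finset ℕ} {w u : ℕ → ℝ} {α : ℝ} {A : ℕ} {v₀ M : ℝ} (hM : 0 < M) (hF : WeylFam s w u α A v₀ M)
    {μ : ℕ} (hα : ∀ (p : ℤ) (q : ℕ), 2 ≤ q → 1 / (q : ℝ) ^ μ ≤ |α - p / q|) {b H : ℕ} (hb : 2 ≤ b) (hH : 1 ≤ H)
    (hv : v₀ ≤ H) (hbig : (b + 1) * ((A * (H : ℝ) ^ (A + 1)) * (A * (H : ℝ) ^ A / M)) < 1)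
    (r : ℕ) (hr : A * (H : ℝ) ^ (A + 1) ≤ (b : ℝ) ^ r) (i₀ : ℕ) :
    ∃ i, i₀ ≤ i ∧ i ≤ i₀ + μ * (i₀ + r + 1) ∧ Good s w u b H i := by
  by_contra hcon
  push Not at hcon
  have hb0 : (0 : ℝ) < b := by exact_mod_cast (by omega : 0 < b)
  have hb1 : (1 : ℝ) < b := by exact_mod_cast (by omega : 1 < b)
  have hb2 : (2 : ℝ) ≤ b := by exact_mod_cast hb
  set η : ℝ := A * (H : ℝ) ^ A / M with hη
  set Q : ℝ := A * (H : ℝ) ^ (A + 1) with hQ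
  have hη0 : 0 ≤ η := by positivity
  obtain ⟨q, hq1, hq2, a, ha⟩ := chain_approx (α := α) hb hη0 hbig i₀ (μ * (i₀ + r + 1)) fun i h1 h2 =>
    bad hM hF (by omega) hH hv (hcon i h1 h2)
  have hq0 : (1 : ℝ) ≤ q := by exact_mod_cast hq1
  have hQ1 : 1 ≤ Q := hq0.trans hq2
  have hη1 : η < 1 := by
    by_contra hc
    push Not at hc
    have : (1 : ℝ) ≤ (b + 1) * (Q * η) := by
      have h1 : 1 ≤ Q * η := one_le_mul_of_one_le_of_one_le hQ1 hc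
      nlinarith
    linarith
  have h1 := hα (2 * a) (2 * q * b ^ i₀) (by
    have : 1 ≤ b ^ i₀ := Nat.one_le_pow _ _ (by omega)
    nlinarith)
  have e : (((2 * a : ℤ) : ℝ)) / ((2 * q * b ^ i₀ : ℕ) : ℝ) = a / (q * (b : ℝ) ^ i₀) := by
    push_cast
    rw [div_eq_div_iff (by positivity) (by positivity)]
    ring
  rw [e] at h1
  have h2 : 1 / (((2 * q * b ^ i₀ : ℕ) : ℝ)) ^ μ < 1 / (b : ℝ) ^ (i₀ + μ * (i₀ + r + 1)) := by
    refine lt_of_le_of_lt (h1.trans ha) ?_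
    gcongr
  have h3 : (b : ℝ) ^ (i₀ + μ * (i₀ + r + 1)) < (((2 * q * b ^ i₀ : ℕ) : ℝ)) ^ μ := by
    rwa [one_div_lt_one_div (by positivity) (by positivity)] at h2
  have h4 : (((2 * q * b ^ i₀ : ℕ) : ℝ)) ^ μ ≤ ((b : ℝ) ^ (i₀ + r + 1)) ^ μ := by
    apply pow_le_pow_left₀ (by positivity)
    push_cast
    calc (2 : ℝ) * q * (b : ℝ) ^ i₀ ≤ b * (b : ℝ) ^ r * (b : ℝ) ^ i₀ := by
          gcongr
          exact hq2.trans hr
      _ = _ := by ring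
  have h5 : ((b : ℝ) ^ (i₀ + r + 1)) ^ μ ≤ (b : ℝ) ^ (i₀ + μ * (i₀ + r + 1)) := by
    rw [← pow_mul]
    apply pow_le_pow_right₀ hb1.le
    nlinarith
  linarith

end Pool.Agent.N710.PW
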