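import Mathlib
import Pool.Agent.N710.PW.Good

/-!
# Words which stand infinitely often, and often
-/

set_option autoImplicit false

namespace Pool.Agent.N710.PW

open Finset Filter
open Pool.Agent.H807R2.Dav (ee norm_ee ee_add ee_zero ee_int ee_add_int ee_eq)

/-- the block of digits behind the place `i` -/
noncomputable def VV (b k L i : ℕ) (y : ℝ) : ℕ := ⌊(((b ^ k) ^ L : ℕ) : ℝ) * Int.fract ((b : ℝ) ^ i * y)⌋₊

lemma VV_lt {b k : ℕ} (hb : 1 ≤ b) (L i : ℕ) (y : ℝ) : VV b k L i y < (b ^ k) ^ L := by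
  unfold VV
  have h0 : 0 < (b ^ k) ^ L := Nat.pow_pos (Nat.pow_pos (by omega))
  have h1 : (0 : ℝ) < (((b ^ k) ^ L : ℕ) : ℝ) := by exact_mod_cast h0
  rw [Nat.floor_lt (mul_nonneg h1.le (Int.fract_nonneg _))]
  calc _ < (((b ^ k) ^ L : ℕ) : ℝ) * 1 := mul_lt_mul_of_pos_left (Int.fract_lt_one _) h1
    _ = _ := mul_one _

open Classical in
lemma stands_count {b k : ℕ} (hb : 1 ≤ b) (W L i : ℕ) (y : ℝ) :
    ((range L).filter (fun j => Stands b k W y (i + j * k))).card = occ (b ^ k) W L (VV b k L i y) := by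
  unfold occ
  rw [card_filter, card_filter, ← sum_range_reflect]
  refine sum_congr rfl fun j hj => ?_
  rw [mem_range] at hj
  have h1 := stands_iff (b := b) (k := k) hb W L i (L - 1 - j) (by omega) y
  have h2 : L - 1 - (L - 1 - j) = j := by omega
  rw [h2] at h1
  unfold VV
  simp only [h1]

/-- the weight of the members with few words `W` behind a good place -/
theorem poor_weight {s : Finset ℕ} {w u : ℕ → ℝ} (hw : ∀ n ∈ s, 0 ≤ w n) {b k L i : ℕ} (hb : 1 ≤ b)
    (hg : Good s w u b ((b ^ k) ^ L) i) {W : ℕ} (hW : W < b ^ k) (m : ℕ) :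
    ∑ n ∈ s.filter (fun n => occ (b ^ k) W L (VV b k L i (u n)) ≤ m), w n ≤
      10 * (∑ n ∈ s, w n) * (2 ^ m * (1 - 1 / (2 * ((b : ℝ) ^ k))) ^ L) := by
  classical
  set B : ℕ := b ^ k with hB
  have hB0 : 0 < B := by omega
  have hBr : (0 : ℝ) < B := by exact_mod_cast hB0
  have hH : 1 ≤ B ^ L := Nat.pow_pos hB0
  set T := (range (B ^ L)).filter (fun V => occ B W L V ≤ m) with hT
  have h1 := fejer_set s w (fun n => (b : ℝ) ^ i * u n) hw (B ^ L) hH hg T
  have h2 : s.filter (fun n => occ B W L (VV b k L i (u n)) ≤ m) ⊆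
      s.filter (fun n => ⌊((B ^ L : ℕ) : ℝ) * Int.fract ((b : ℝ) ^ i * u n)⌋₊ ∈ T) := by
    intro n hn
    rw [mem_filter] at hn ⊢
    refine ⟨hn.1, ?_⟩
    rw [hT, mem_filter, mem_range]
    exact ⟨VV_lt hb L i (u n), hn.2⟩
  have h3 := count_few hW L m
  have hW0 : 0 ≤ ∑ n ∈ s, w n := sum_nonneg hw
  calc ∑ n ∈ s.filter (fun n => occ B W L (VV b k L i (u n)) ≤ m), w n
      ≤ ∑ n ∈ s.filter (fun n => ⌊((B ^ L : ℕ) : ℝ) * Int.fract ((b : ℝ) ^ i * u n)⌋₊ ∈ T), w n :=
        sum_le_sum_of_subset_of_nonneg h2 fun n hn _ => hw n (mem_of_mem_filter n hn)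
    _ ≤ T.card * (10 * (∑ n ∈ s, w n) / ((B ^ L : ℕ) : ℝ)) := h1
    _ ≤ (2 ^ m * ((B : ℝ) - 1 / 2) ^ L) * (10 * (∑ n ∈ s, w n) / ((B ^ L : ℕ) : ℝ)) :=
        mul_le_mul_of_nonneg_right h3 (by positivity)
    _ = _ := by
        have e1 : ((b : ℝ) ^ k) = B := by rw [hB]; push_cast; rfl
        have e2 : (1 - 1 / (2 * (B : ℝ))) = ((B : ℝ) - 1 / 2) / B := by field_simp
        rw [e1, e2, div_pow]
        push_cast
        ring

/-- **Words which stand infinitely often.** -/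
theorem inf_words {s : Finset ℕ} {w u : ℕ → ℝ} (hw : ∀ n ∈ s, 0 ≤ w n) {b k L : ℕ} (hb : 1 ≤ b)
    (hg : ∀ i₀, ∃ i, i₀ ≤ i ∧ Good s w u b ((b ^ k) ^ L) i) (E : Finset ℕ) (hE : E ⊆ s)
    (hE' : ∀ n ∈ E, ∃ W < b ^ k, ¬ ∃ᶠ i in atTop, Stands b k W (u n) i) :
    ∑ n ∈ E, w n ≤ 10 * (∑ n ∈ s, w n) * ((b : ℝ) ^ k * (1 - 1 / (2 * ((b : ℝ) ^ k))) ^ L) := by
  classical
  choose! Wn hWn hfr using hE'
  have h1 : ∀ n ∈ E, ∃ i₀, ∀ i, i₀ ≤ i → ¬ Stands b k (Wn n) (u n) i := by
    intro n hn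
    have := hfr n hn
    rw [not_frequently, eventually_atTop] at this
    exact this
  choose! i₀ hi₀ using h1
  obtain ⟨i, hi, hgi⟩ := hg (E.sup i₀)
  have h2 : E ⊆ (range (b ^ k)).biUnion fun W => s.filter (fun n => occ (b ^ k) W L (VV b k L i (u n)) ≤ 0) := by
    intro n hn
    rw [mem_biUnion]
    refine ⟨Wn n, mem_range.2 (hWn n hn), mem_filter.2 ⟨hE hn, ?_⟩⟩
    rw [← stands_count hb, Nat.le_zero, card_eq_zero, filter_eq_empty_iff]
    intro j _
    exact hi₀ n hn _ (by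
      have : i₀ n ≤ E.sup i₀ := le_sup hn
      omega)
  have h3 : ∑ n ∈ E, w n ≤ ∑ W ∈ range (b ^ k), ∑ n ∈ s.filter (fun n => occ (b ^ k) W L (VV b k L i (u n)) ≤ 0), w n := by
    calc ∑ n ∈ E, w n ≤ ∑ n ∈ E, ∑ W ∈ range (b ^ k), if occ (b ^ k) W L (VV b k L i (u n)) ≤ 0 then w n else 0 := by
          refine sum_le_sum fun n hn => ?_
          have hn2 := h2 hn
          rw [mem_biUnion] at hn2
          obtain ⟨W, hW, hnW⟩ := hn2
          rw [mem_filter] at hnW
          have := single_le_sum (f := fun W => if occ (b ^ k) W L (VV b k L i (u n)) ≤ 0 then w n else 0)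
            (s := range (b ^ k)) (fun W _ => by
              split_ifs
              · exact hw n (hE hn)
              · exact le_rfl) hW
          simp only [hnW.2, if_true] at this
          exact this
      _ ≤ ∑ n ∈ s, ∑ W ∈ range (b ^ k), if occ (b ^ k) W L (VV b k L i (u n)) ≤ 0 then w n else 0 := by
          refine sum_le_sum_of_subset_of_nonneg hE fun n hn _ => sum_nonneg fun W _ => ?_
          split_ifs
          · exact hw n hn
          · exact le_rfl
      _ = _ := by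
          rw [sum_comm]
          refine sum_congr rfl fun W _ => ?_
          rw [sum_filter]
  refine h3.trans ?_
  calc ∑ W ∈ range (b ^ k), ∑ n ∈ s.filter (fun n => occ (b ^ k) W L (VV b k L i (u n)) ≤ 0), w n
      ≤ ∑ _W ∈ range (b ^ k), 10 * (∑ n ∈ s, w n) * (2 ^ 0 * (1 - 1 / (2 * ((b : ℝ) ^ k))) ^ L) :=
        sum_le_sum fun W hW => poor_weight hw hb hgi (mem_range.1 hW) 0
    _ = _ := by
        rw [sum_const, card_range, nsmul_eq_mul]
        push_cast
        ring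

open Classical in
/-- the number of places `i < N` behind which the word stands -/
noncomputable def cnt (b k W : ℕ) (y : ℝ) (N : ℕ) : ℕ := ((range N).filter (fun i => Stands b k W y i)).card

open Classical in
/-- the windows behind the places `g t` are disjoint -/
lemma cnt_ge {b k W L N T : ℕ} (hb : 1 ≤ b) (hk : 1 ≤ k) (g : ℕ → ℕ) (hg : ∀ t t', t < t' → g t + k * L ≤ g t')
    (hN : ∀ t, t < T → g t + k * L ≤ N) (y : ℝ) :
    ∑ t ∈ range T, occ (b ^ k) W L (VV b k L (g t) y) ≤ cnt b k W y N := by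
  unfold cnt
  simp only [← stands_count hb]
  rw [← card_sigma]
  refine card_le_card_of_injOn (fun p => g p.1 + p.2 * k) ?_ ?_
  · rintro ⟨t, j⟩ hp
    rw [mem_coe, mem_sigma, mem_range, mem_filter, mem_range] at hp
    rw [mem_coe, mem_filter, mem_range]
    refine ⟨?_, hp.2.2⟩
    have h1 := hN t hp.1
    have h2 : (j + 1) * k ≤ L * k := Nat.mul_le_mul_right k hp.2.1
    have h3 : (j + 1) * k = j * k + k := by ring
    have h4 : L * k = k * L := Nat.mul_comm _ _
    simp only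
    omega
  · rintro ⟨t, j⟩ hp ⟨t', j'⟩ hp' heq
    rw [mem_coe, mem_sigma, mem_range, mem_filter, mem_range] at hp hp'
    simp only at heq hp hp'
    have key : ∀ t t' j j' : ℕ, j < L → t < t' → g t + j * k ≠ g t' + j' * k := by
      intro t t' j j' hj htt h
      have h1 := hg t t' htt
      have h2 : (j + 1) * k ≤ L * k := Nat.mul_le_mul_right k hj
      have h3 : (j + 1) * k = j * k + k := by ring
      have h4 : L * k = k * L := Nat.mul_comm _ _
      omega
    have htt : t = t' := by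
      rcases lt_trichotomy t t' with h | h | h
      · exact absurd heq (key t t' j j' hp.2.1 h)
      · exact h
      · exact absurd heq.symm (key t' t j' j hp'.2.1 h)
    subst htt
    have : j * k = j' * k := by omega
    have := Nat.eq_of_mul_eq_mul_right (by omega) this
    subst this
    rfl

/-- **Words which stand often.** -/
theorem often_words {s : Finset ℕ} {w u : ℕ → ℝ} (hw : ∀ n ∈ s, 0 ≤ w n) {b k L N T : ℕ} (hb : 1 ≤ b) (hk : 1 ≤ k)
    (g : ℕ → ℕ) (hg : ∀ t t', t < t' → g t + k * L ≤ g t') (hN : ∀ t, t < T → g t + k * L ≤ N)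
    (hgood : ∀ t, t < T → Good s w u b ((b ^ k) ^ L) (g t)) (m : ℕ) (E : Finset ℕ) (hE : E ⊆ s)
    (hE' : ∀ n ∈ E, ∃ W < b ^ k, 2 * cnt b k W (u n) N < T * (m + 1)) :
    ∑ n ∈ E, w n ≤ 20 * (∑ n ∈ s, w n) * ((b : ℝ) ^ k * (2 ^ m * (1 - 1 / (2 * ((b : ℝ) ^ k))) ^ L)) := by
  classical
  set P : ℕ → ℕ → ℕ → Prop := fun n W t => occ (b ^ k) W L (VV b k L (g t) (u n)) ≤ m with hP
  have h1 : ∀ n ∈ E, (T : ℝ) / 2 ≤ ∑ W ∈ range (b ^ k), ∑ t ∈ range T, if P n W t then (1 : ℝ) else 0 := by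
    intro n hn
    obtain ⟨W, hW, hc⟩ := hE' n hn
    have h2 : ∑ t ∈ range T, (if P n W t then (0 : ℕ) else 1) * (m + 1) ≤ cnt b k W (u n) N := by
      refine le_trans (sum_le_sum fun t _ => ?_) (cnt_ge hb hk g hg hN (u n))
      by_cases hp : P n W t
      · rw [if_pos hp]; simp
      · rw [if_neg hp, one_mul]
        simp only [hP, not_le] at hp
        exact hp
    rw [← sum_mul] at h2
    have h3 : 2 * ((∑ t ∈ range T, (if P n W t then (0 : ℕ) else 1)) * (m + 1)) < T * (m + 1) := by omega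
    have h4 : 2 * (∑ t ∈ range T, (if P n W t then (0 : ℕ) else 1)) < T := by
      rw [← mul_assoc] at h3
      exact lt_of_mul_lt_mul_right h3 (Nat.zero_le _)
    have h5 : (∑ t ∈ range T, (if P n W t then (0 : ℕ) else 1)) + ∑ t ∈ range T, (if P n W t then (1 : ℕ) else 0) = T := by
      rw [← sum_add_distrib]
      calc _ = ∑ _t ∈ range T, 1 := sum_congr rfl fun t _ => by split_ifs <;> rfl
        _ = T := by simp
    have h6 : (T : ℝ) / 2 ≤ ∑ t ∈ range T, (if P n W t then (1 : ℝ) else 0) := by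
      have h7 : T ≤ 2 * ∑ t ∈ range T, (if P n W t then (1 : ℕ) else 0) := by omega
      have h8 : (T : ℝ) ≤ 2 * ∑ t ∈ range T, (if P n W t then (1 : ℝ) else 0) := by exact_mod_cast h7
      linarith
    refine h6.trans ?_
    exact single_le_sum (f := fun W => ∑ t ∈ range T, if P n W t then (1 : ℝ) else 0) (s := range (b ^ k))
      (fun W _ => sum_nonneg fun t _ => by split_ifs <;> norm_num) (mem_range.2 hW)
  rcases Nat.eq_zero_or_pos T with hT | hT
  · have : E = ∅ := by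
      rw [eq_empty_iff_forall_notMem]
      intro n hn
      obtain ⟨W, _, hc⟩ := hE' n hn
      rw [hT] at hc
      omega
    rw [this, sum_empty]
    have h0 := sum_nonneg hw
    have : (0 : ℝ) ≤ 1 - 1 / (2 * ((b : ℝ) ^ k)) := by
      have hb1 : (1 : ℝ) ≤ (b : ℝ) ^ k := one_le_pow₀ (by exact_mod_cast hb)
      rw [sub_nonneg, div_le_one (by positivity)]
      linarith
    positivity
  have hT0 : (0 : ℝ) < T := by exact_mod_cast hT
  have h2 : (∑ n ∈ E, w n) * ((T : ℝ) / 2) ≤ T * ((b : ℝ) ^ k * (10 * (∑ n ∈ s, w n) * (2 ^ m * (1 - 1 / (2 * ((b : ℝ) ^ k))) ^ L))) := by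
    calc (∑ n ∈ E, w n) * ((T : ℝ) / 2) = ∑ n ∈ E, w n * ((T : ℝ) / 2) := by rw [sum_mul]
      _ ≤ ∑ n ∈ E, w n * ∑ W ∈ range (b ^ k), ∑ t ∈ range T, (if P n W t then (1 : ℝ) else 0) :=
          sum_le_sum fun n hn => mul_le_mul_of_nonneg_left (h1 n hn) (hw n (hE hn))
      _ ≤ ∑ n ∈ s, w n * ∑ W ∈ range (b ^ k), ∑ t ∈ range T, (if P n W t then (1 : ℝ) else 0) :=
          sum_le_sum_of_subset_of_nonneg hE fun n hn _ => mul_nonneg (hw n hn)
            (sum_nonneg fun W _ => sum_nonneg fun t _ => by split_ifs <;> norm_num)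
      _ = ∑ t ∈ range T, ∑ W ∈ range (b ^ k), ∑ n ∈ s.filter (fun n => P n W t), w n := by
          have e1 : ∀ n ∈ s, w n * ∑ W ∈ range (b ^ k), ∑ t ∈ range T, (if P n W t then (1 : ℝ) else 0) =
              ∑ W ∈ range (b ^ k), ∑ t ∈ range T, (if P n W t then w n else 0) := by
            intro n _
            rw [mul_sum]
            refine sum_congr rfl fun W _ => ?_
            rw [mul_sum]
            refine sum_congr rfl fun t _ => ?_
            split_ifs <;> simp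
          rw [sum_congr rfl e1, sum_comm, sum_comm (s := range T)]
          refine sum_congr rfl fun W _ => ?_
          rw [sum_comm]
          refine sum_congr rfl fun t _ => ?_
          rw [sum_filter]
      _ ≤ ∑ _t ∈ range T, ∑ _W ∈ range (b ^ k), (10 * (∑ n ∈ s, w n) * (2 ^ m * (1 - 1 / (2 * ((b : ℝ) ^ k))) ^ L)) :=
          sum_le_sum fun t ht => sum_le_sum fun W hW => poor_weight hw hb (hgood t (mem_range.1 ht)) (mem_range.1 hW) m
      _ = _ := by
          rw [sum_const, sum_const, card_range, card_range, nsmul_eq_mul, nsmul_eq_mul]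
          push_cast
          ring
  have h3 : (∑ n ∈ E, w n) * ((T : ℝ) / 2) ≤
      (20 * (∑ n ∈ s, w n) * ((b : ℝ) ^ k * (2 ^ m * (1 - 1 / (2 * ((b : ℝ) ^ k))) ^ L))) * ((T : ℝ) / 2) := by
    refine h2.trans (le_of_eq ?_)
    ring
  exact le_of_mul_le_mul_right h3 (by positivity)

end Pool.Agent.N710.PW
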