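import Mathlib
import Pool.Agent.N710.PW.Words
import Pool.Agent.N710.PW.Minor
import Pool.Agent.TH869.LPS.WeylQ

/-!
# The two families: polynomial values at integers and at primes
-/

set_option autoImplicit false

namespace Pool.Agent.N710.PW

open Finset Filter Polynomial
open Pool.Agent.H807R2.Dav (ee norm_ee ee_add ee_zero ee_int ee_add_int ee_eq)
open Pool.Agent.R486.PD (SLam Near)

lemma e_eq_ee (x : ℝ) : Pool.Agent.H332R2.Lit.e x = ee x := by
  unfold Pool.Agent.H332R2.Lit.e ee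
  congr 1
  ring

/-- the values of a real polynomial at `0, 1, …, M - 1` -/
theorem weylFam_poly (d : ℕ) (hd : 1 ≤ d) : ∃ A : ℕ, 1 ≤ A ∧ ∀ f : ℝ[X], f.natDegree ≤ d → ∀ M : ℕ, 1 ≤ M →
    WeylFam (range M) (fun _ => 1) (fun n => f.eval (n : ℝ)) (f.coeff d) A 1 M := by
  obtain ⟨d', rfl⟩ : ∃ d', d = d' + 1 := ⟨d - 1, by omega⟩
  obtain ⟨C, hC, hw⟩ := Pool.Agent.TH869.LPS.weylQ d'
  refine ⟨C, hC, fun f hf M hM t ht v _ hv hbig => ?_⟩
  have hv0 : 0 < v := by linarith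
  have hM0 : (0 : ℝ) < M := by exact_mod_cast hM
  by_contra hcon
  push Not at hcon
  have h1 := hw (1 / v) (by positivity) (by rw [div_le_one hv0]; exact hv) (Polynomial.C (t : ℝ) * f)
    ((natDegree_C_mul_le _ _).trans hf) M hM (by
      intro m hm1 hm2
      rw [one_div_one_div] at hm2 ⊢
      have := hcon m hm1 hm2 (round ((m : ℝ) * (Polynomial.C (t : ℝ) * f).coeff (d' + 1)))
      rw [coeff_C_mul] at this ⊢
      exact this.le)
  have e1 : SS (range M) (fun _ => 1) (fun n => f.eval (n : ℝ)) t =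
      ∑ l ∈ range M, Pool.Agent.H332R2.Lit.e ((Polynomial.C (t : ℝ) * f).eval (l : ℝ)) := by
    unfold SS
    refine sum_congr rfl fun n _ => ?_
    rw [e_eq_ee, eval_mul, eval_C]
    simp
  rw [e1] at hbig
  rw [sum_const, card_range, nsmul_eq_mul, mul_one] at hbig
  have h2 : (M : ℝ) / v = 1 / v * M := by ring
  linarith

lemma psi_lower : ∃ N₀ : ℕ, ∀ N : ℕ, N₀ ≤ N → (N : ℝ) / 4 ≤ ∑ n ∈ Icc 1 N, ArithmeticFunction.vonMangoldt n := by
  refine ⟨100, fun N hN => ?_⟩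
  have hNr : (100 : ℝ) ≤ N := by exact_mod_cast hN
  have h1 := Chebyshev.psi_ge N
  have h2 : Chebyshev.psi (N : ℝ) = ∑ n ∈ Icc 1 N, ArithmeticFunction.vonMangoldt n := by
    unfold Chebyshev.psi
    rw [Nat.floor_natCast]
    rfl
  rw [h2] at h1
  have h3 : Real.log (N + 1) ≤ 2 * Real.sqrt (N + 1) := by
    have h4 : Real.log (N + 1) = 2 * Real.log (Real.sqrt (N + 1)) := by
      rw [Real.log_sqrt (by positivity)]; ring
    have h5 := Real.log_le_sub_one_of_pos (Real.sqrt_pos.2 (by positivity : (0 : ℝ) < (N : ℝ) + 1))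
    linarith
  have h6 : Real.sqrt (N + 1) ≤ (N + 1) / 10 := by
    have h7 : (10 : ℝ) ≤ Real.sqrt (N + 1) := by
      rw [show (10 : ℝ) = Real.sqrt 100 by
        rw [show (100 : ℝ) = 10 ^ 2 by norm_num, Real.sqrt_sq (by norm_num)]]
      exact Real.sqrt_le_sqrt (by linarith)
    have h8 := Real.mul_self_sqrt (by positivity : (0 : ℝ) ≤ (N : ℝ) + 1)
    rw [le_div_iff₀ (by norm_num)]
    nlinarith
  have h9 := Real.log_two_gt_d9
  nlinarith

lemma psi_upper (N : ℕ) : ∑ n ∈ Icc 1 N, ArithmeticFunction.vonMangoldt n ≤ 6 * (N : ℝ) := by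
  have h1 := Chebyshev.psi_le_const_mul_self (Nat.cast_nonneg N : (0 : ℝ) ≤ N)
  have h2 : Chebyshev.psi (N : ℝ) = ∑ n ∈ Icc 1 N, ArithmeticFunction.vonMangoldt n := by
    unfold Chebyshev.psi
    rw [Nat.floor_natCast]
    rfl
  rw [h2] at h1
  have h3 : Real.log 4 ≤ 2 := by
    have : Real.log 4 = 2 * Real.log 2 := by
      rw [show (4 : ℝ) = 2 ^ 2 by norm_num, Real.log_pow]; push_cast; ring
    rw [this]
    have := Real.log_two_lt_d9
    linarith
  have : (Real.log 4 + 4) * (N : ℝ) ≤ 6 * N := by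
    apply mul_le_mul_of_nonneg_right _ (Nat.cast_nonneg N)
    linarith
  linarith

/-- the values `y + h(n) x` with the weights `Λ(n)` -/
theorem weylFam_prime (h : ℤ[X]) (hd : 1 ≤ h.natDegree) : ∃ A : ℕ, 1 ≤ A ∧ ∀ x y : ℝ, ∀ N : ℕ, 1 ≤ N →
    WeylFam (Icc 1 N) (fun n => ArithmeticFunction.vonMangoldt n) (fun n => y + ((h.eval (n : ℤ) : ℤ) : ℝ) * x) x A
      (A + Real.log N) N := by
  obtain ⟨C, L₀, hmin⟩ := minorPow h hd
  obtain ⟨N₀, hN₀⟩ := psi_lower
  obtain ⟨K, hK⟩ : ∃ K : ℕ, K = 4 ^ C := ⟨_, rfl⟩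
  refine ⟨K + C + 1 + N₀ + L₀, by omega, fun x y N hN t ht v hv1 hv hbig => ?_⟩
  set A := K + C + 1 + N₀ + L₀ with hA
  have hN0 : (0 : ℝ) < N := by exact_mod_cast hN
  have hN1 : (1 : ℝ) ≤ N := by exact_mod_cast hN
  have hv0 : 0 < v := by linarith
  have hA1 : (1 : ℝ) ≤ A := by exact_mod_cast (by omega : 1 ≤ A)
  have hvA : 1 ≤ v ^ A := one_le_pow₀ hv
  have hlogN : 0 ≤ Real.log N := Real.log_nonneg hN1
  have hC4 : (4 * v) ^ C ≤ A * v ^ A := by
    rw [mul_pow]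
    apply mul_le_mul
    · exact_mod_cast (by rw [← hK]; omega : 4 ^ C ≤ A)
    · exact pow_le_pow_right₀ hv (by omega)
    · positivity
    · positivity
  -- the trivial case
  have triv : (N : ℝ) ≤ A * v ^ A → ∃ q : ℕ, 1 ≤ q ∧ (q : ℝ) ≤ A * v ^ A ∧ ∃ a : ℤ, |q * (t * x) - a| ≤ A * v ^ A / N := by
    intro hle
    refine ⟨1, le_rfl, ?_, round ((t : ℝ) * x), ?_⟩
    · rw [Nat.cast_one]
      exact one_le_mul_of_one_le_of_one_le hA1 hvA
    · rw [Nat.cast_one, one_mul]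
      refine (abs_sub_round _).trans ?_
      rw [le_div_iff₀ hN0]
      linarith
  rcases lt_or_ge N N₀ with hlt | hge
  · apply triv
    calc (N : ℝ) ≤ A := by exact_mod_cast (by omega : N ≤ A)
      _ = A * 1 := (mul_one _).symm
      _ ≤ _ := by gcongr
  rcases lt_or_ge (N : ℝ) ((4 * v) ^ C) with hlt | hge2
  · exact triv (hlt.le.trans hC4)
  have e1 : SS (Icc 1 N) (fun n => ArithmeticFunction.vonMangoldt n) (fun n => y + ((h.eval (n : ℤ) : ℤ) : ℝ) * x) t =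
      ee (t * y) * SLam h N (t * x) := by
    unfold SS SLam
    rw [mul_sum]
    refine sum_congr rfl fun n _ => ?_
    rw [show (t : ℝ) * (y + ((h.eval (n : ℤ) : ℤ) : ℝ) * x) = t * y + t * x * ((h.eval (n : ℤ) : ℤ) : ℝ) by ring, ee_add]
    ring
  rw [e1, norm_mul, norm_ee, one_mul] at hbig
  have hLlog : Real.log N ≤ 4 * v := by linarith
  have hL0 : (L₀ : ℝ) ≤ 4 * v := by
    have : (L₀ : ℝ) ≤ A := by exact_mod_cast (by omega : L₀ ≤ A)
    linarith
  obtain ⟨q, hq1, hq2, a, ha⟩ := hmin N (4 * v) hN hLlog hL0 hge2 (t * x) (by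
    refine le_trans ?_ hbig.le
    rw [← div_div]
    gcongr
    exact hN₀ N hge)
  refine ⟨q, hq1, hq2.trans hC4, a, ha.trans ?_⟩
  calc (4 * v) ^ C / (N : ℝ) ^ h.natDegree ≤ (4 * v) ^ C / (N : ℝ) ^ 1 := by
        gcongr
    _ ≤ A * v ^ A / N := by
        rw [pow_one]
        gcongr

end Pool.Agent.N710.PW
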