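import Mathlib
import Pool.Agent.N710.PW.Words

/-!
# A sequence of good places
-/

set_option autoImplicit false

namespace Pool.Agent.N710.PW

open Finset Filter

/-- Good places `g 0 < g 1 < …` with disjoint windows of length `ℓ`, growing at most exponentially. -/
theorem good_seq (G : ℕ → Prop) (μ r ℓ : ℕ) (h : ∀ i₀, ∃ i, i₀ ≤ i ∧ i ≤ i₀ + μ * (i₀ + r + 1) ∧ G i) :
    ∃ g : ℕ → ℕ, (∀ t, G (g t)) ∧ (∀ t t', t < t' → g t + ℓ ≤ g t') ∧
      ∀ t, g t + ℓ ≤ (μ + 2) ^ (t + 1) * (ℓ + r + 1) := by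
  choose nx h1 h2 h3 using h
  set g : ℕ → ℕ := fun t => Nat.rec (nx 0) (fun _ x => nx (x + ℓ)) t with hg
  have g0 : g 0 = nx 0 := rfl
  have gs : ∀ t, g (t + 1) = nx (g t + ℓ) := fun t => rfl
  have hstep : ∀ t, g t + ℓ ≤ g (t + 1) := fun t => by rw [gs]; exact h1 _
  refine ⟨g, fun t => ?_, fun t t' htt => ?_, fun t => ?_⟩
  · cases t with
    | zero => rw [g0]; exact h3 0
    | succ t => rw [gs]; exact h3 _
  · obtain ⟨n, rfl⟩ : ∃ n, t' = t + 1 + n := ⟨t' - (t + 1), by omega⟩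
    clear htt
    induction n with
    | zero => exact hstep t
    | succ n ih =>
      have := hstep (t + 1 + n)
      have e : t + 1 + (n + 1) = t + 1 + n + 1 := by omega
      rw [e]
      omega
  · set D := ℓ + r + 1 with hD
    induction t with
    | zero =>
      have h4 := h2 0
      rw [g0, pow_one]
      calc nx 0 + ℓ ≤ (0 + μ * (0 + r + 1)) + ℓ := by omega
        _ ≤ (μ + 2) * D := by rw [hD]; nlinarith
    | succ t ih =>
      have h4 := h2 (g t + ℓ)
      rw [gs]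
      have hp : 1 ≤ (μ + 2) ^ (t + 1) := Nat.one_le_pow _ _ (by omega)
      calc nx (g t + ℓ) + ℓ ≤ (g t + ℓ + μ * (g t + ℓ + r + 1)) + ℓ := by omega
        _ ≤ ((μ + 1) * (g t + ℓ)) + (μ + 1) * D := by rw [hD]; nlinarith
        _ ≤ ((μ + 1) * ((μ + 2) ^ (t + 1) * D)) + (μ + 1) * D := by gcongr
        _ ≤ (μ + 2) ^ (t + 1 + 1) * D := by
            have e : (μ + 2) ^ (t + 1 + 1) * D = (μ + 1) * ((μ + 2) ^ (t + 1) * D) + (μ + 2) ^ (t + 1) * D := by ring
            rw [e]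
            have h5 : μ + 2 ≤ (μ + 2) ^ (t + 1) := by
              calc μ + 2 = (μ + 2) ^ 1 := (pow_one _).symm
                _ ≤ _ := Nat.pow_le_pow_right (by omega) (by omega)
            have h6 : (μ + 1) * D ≤ (μ + 2) ^ (t + 1) * D := Nat.mul_le_mul_right _ (by omega)
            omega

end Pool.Agent.N710.PW
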