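import Mathlib
import Pool.Agent.N710.PW.Seq
import Pool.Agent.N710.PW.Fam

/-!
# Choice of the parameters
-/

set_option autoImplicit false

namespace Pool.Agent.N710.PW

open Finset Filter

lemma ev_log (A : ℕ) : ∃ M₀ : ℝ, 1 ≤ M₀ ∧ ∀ M : ℝ, M₀ ≤ M → (A : ℝ) + Real.log M ≤ M ^ ((1 : ℝ) / (8 * (2 * A + 1))) ∧
    2 * (A : ℝ) ^ 2 ≤ M ^ ((1 : ℝ) / 4) := by
  have h1 : (fun M : ℝ => (A : ℝ) + Real.log M) =o[atTop] fun M : ℝ => M ^ ((1 : ℝ) / (8 * (2 * A + 1))) := by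
    apply Asymptotics.IsLittleO.add
    · apply Asymptotics.isLittleO_const_left.2
      right
      exact tendsto_norm_atTop_atTop.comp (tendsto_rpow_atTop (by positivity))
    · exact isLittleO_log_rpow_atTop (by positivity)
  have h2 : (fun _ : ℝ => 2 * (A : ℝ) ^ 2) =o[atTop] fun M : ℝ => M ^ ((1 : ℝ) / 4) := by
    apply Asymptotics.isLittleO_const_left.2
    right
    exact tendsto_norm_atTop_atTop.comp (tendsto_rpow_atTop (by norm_num))
  obtain ⟨M₁, hM₁⟩ := (h1.def one_pos).exists_forall_of_atTop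
  obtain ⟨M₂, hM₂⟩ := (h2.def one_pos).exists_forall_of_atTop
  refine ⟨max 1 (max M₁ M₂), le_max_left _ _, fun M hM => ?_⟩
  have a1 := hM₁ M ((le_max_left _ _).trans ((le_max_right _ _).trans hM))
  have a2 := hM₂ M ((le_max_right _ _).trans ((le_max_right _ _).trans hM))
  have a3 : 1 ≤ M := (le_max_left _ _).trans hM
  rw [one_mul, Real.norm_eq_abs, Real.norm_eq_abs] at a1 a2
  rw [abs_of_nonneg (Real.rpow_nonneg (by linarith) _)] at a1 a2
  exact ⟨(le_abs_self _).trans a1, (le_abs_self _).trans a2⟩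

/-- the parameters -/
theorem params (A : ℕ) : ∃ X₀ : ℝ, 8 * (2 * A + 1) ≤ X₀ ∧ 4 ≤ X₀ ∧ ∀ (b B M : ℕ), 2 ≤ b → b ≤ B → 1 ≤ M →
    X₀ ≤ Real.log M / Real.log B → ∀ L : ℕ, L = ⌊Real.log M / Real.log B / (4 * (2 * A + 1))⌋₊ →
    (A : ℝ) + Real.log M ≤ ((B ^ L : ℕ) : ℝ) ∧
    (b + 1) * ((A * ((B ^ L : ℕ) : ℝ) ^ (A + 1)) * (A * ((B ^ L : ℕ) : ℝ) ^ A / M)) < 1 ∧
    A * ((B ^ L : ℕ) : ℝ) ^ (A + 1) ≤ M ∧
    Real.log M / Real.log B / (8 * (2 * A + 1)) ≤ L := by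
  obtain ⟨M₀, hM₀, hev⟩ := ev_log A
  refine ⟨max (8 * (2 * A + 1)) (max 4 (Real.log M₀ / Real.log 2)), le_max_left _ _,
    (le_max_left _ _).trans (le_max_right _ _), fun b B M hb hbB hM hX L hL => ?_⟩
  have hX1 : 8 * (2 * (A : ℝ) + 1) ≤ Real.log M / Real.log B := (le_max_left _ _).trans hX
  have hX2 : 4 ≤ Real.log M / Real.log B := (le_max_left _ _).trans ((le_max_right _ _).trans hX)
  have hX3 : Real.log M₀ / Real.log 2 ≤ Real.log M / Real.log B :=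
    (le_max_right _ _).trans ((le_max_right _ _).trans hX)
  set X := Real.log M / Real.log B with hXd
  have hBr : (2 : ℝ) ≤ B := by exact_mod_cast hb.trans hbB
  have hB1 : (1 : ℝ) < B := by linarith
  have hB0 : (0 : ℝ) < B := by linarith
  have hM0 : (0 : ℝ) < M := by exact_mod_cast hM
  have hM1 : (1 : ℝ) ≤ M := by exact_mod_cast hM
  have hlB : 0 < Real.log B := Real.log_pos hB1
  have hl2 : 0 < Real.log 2 := Real.log_pos (by norm_num)
  have hA0 : (0 : ℝ) ≤ A := Nat.cast_nonneg A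
  have hXM : X * Real.log B = Real.log M := by rw [hXd]; field_simp
  have hMX : (M : ℝ) = (B : ℝ) ^ X := by
    rw [Real.rpow_def_of_pos hB0, mul_comm, hXM, Real.exp_log hM0]
  have hMM₀ : M₀ ≤ M := by
    have h1 : Real.log M₀ ≤ Real.log M := by
      have h2 : Real.log M₀ ≤ X * Real.log 2 := by
        rwa [div_le_iff₀ hl2] at hX3
      have h3 : Real.log 2 ≤ Real.log B := Real.log_le_log (by norm_num) hBr
      have h4 : 0 ≤ X := by linarith
      nlinarith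
    exact (Real.log_le_log_iff (by linarith) hM0).1 h1
  obtain ⟨ev1, ev2⟩ := hev M hMM₀
  set a : ℝ := 2 * A + 1 with ha
  have ha1 : 1 ≤ a := by rw [ha]; linarith
  have ha0 : 0 < a := by linarith
  have hL1 : (L : ℝ) ≤ X / (4 * a) := by rw [hL]; exact Nat.floor_le (by positivity)
  have hL2 : X / (4 * a) - 1 < L := by rw [hL]; exact Nat.sub_one_lt_floor _
  have hL3 : X / (8 * a) ≤ L := by
    have h1 : 1 ≤ X / (8 * a) := by rw [le_div_iff₀ (by positivity)]; linarith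
    have h2 : X / (4 * a) = X / (8 * a) + X / (8 * a) := by field_simp; ring
    linarith
  have hHr : ((B ^ L : ℕ) : ℝ) = (B : ℝ) ^ (L : ℝ) := by push_cast; rw [Real.rpow_natCast]
  have hH1 : (1 : ℝ) ≤ ((B ^ L : ℕ) : ℝ) := by
    rw [hHr]; exact Real.one_le_rpow hB1.le (Nat.cast_nonneg L)
  have hH0 : (0 : ℝ) < ((B ^ L : ℕ) : ℝ) := by linarith
  -- the upper bound
  have hHa : ((B ^ L : ℕ) : ℝ) ^ (2 * A + 1) ≤ (M : ℝ) ^ ((1 : ℝ) / 4) := by
    rw [hHr, ← Real.rpow_natCast, ← Real.rpow_mul hB0.le, hMX, ← Real.rpow_mul hB0.le]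
    apply Real.rpow_le_rpow_of_exponent_le hB1.le
    push_cast
    rw [← ha]
    calc (L : ℝ) * a ≤ X / (4 * a) * a := by gcongr
      _ = X * (1 / 4) := by field_simp
  have hBM : (B : ℝ) ≤ (M : ℝ) ^ ((1 : ℝ) / 4) := by
    rw [hMX, ← Real.rpow_mul hB0.le]
    calc (B : ℝ) = (B : ℝ) ^ (1 : ℝ) := (Real.rpow_one _).symm
      _ ≤ _ := Real.rpow_le_rpow_of_exponent_le hB1.le (by linarith)
  have hM4 : (M : ℝ) ^ ((1 : ℝ) / 4) * (M : ℝ) ^ ((1 : ℝ) / 4) * (M : ℝ) ^ ((1 : ℝ) / 4) = (M : ℝ) ^ ((3 : ℝ) / 4) := by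
    rw [← Real.rpow_add hM0, ← Real.rpow_add hM0]; norm_num
  have hMgt : 1 < (M : ℝ) := by
    rw [hMX]; exact Real.one_lt_rpow hB1 (by linarith)
  have hM34 : (M : ℝ) ^ ((3 : ℝ) / 4) < M := by
    calc (M : ℝ) ^ ((3 : ℝ) / 4) < (M : ℝ) ^ (1 : ℝ) := Real.rpow_lt_rpow_of_exponent_lt hMgt (by norm_num)
      _ = M := Real.rpow_one _
  have hp4 : 0 ≤ (M : ℝ) ^ ((1 : ℝ) / 4) := Real.rpow_nonneg hM0.le _
  have hbB' : (b : ℝ) + 1 ≤ 2 * B := by
    have : (b : ℝ) ≤ B := by exact_mod_cast hbB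
    linarith
  have hkey : (b + 1) * ((A : ℝ) ^ 2 * ((B ^ L : ℕ) : ℝ) ^ (2 * A + 1)) < M := by
    calc (b + 1) * ((A : ℝ) ^ 2 * ((B ^ L : ℕ) : ℝ) ^ (2 * A + 1))
        ≤ (2 * B) * ((A : ℝ) ^ 2 * (M : ℝ) ^ ((1 : ℝ) / 4)) := by gcongr
      _ = B * (2 * (A : ℝ) ^ 2) * (M : ℝ) ^ ((1 : ℝ) / 4) := by ring
      _ ≤ (M : ℝ) ^ ((1 : ℝ) / 4) * (M : ℝ) ^ ((1 : ℝ) / 4) * (M : ℝ) ^ ((1 : ℝ) / 4) := by gcongr
      _ = (M : ℝ) ^ ((3 : ℝ) / 4) := hM4
      _ < M := hM34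
  refine ⟨?_, ?_, ?_, hL3⟩
  · refine ev1.trans ?_
    rw [hHr, hMX, ← Real.rpow_mul hB0.le]
    apply Real.rpow_le_rpow_of_exponent_le hB1.le
    calc X * (1 / (8 * (2 * (A : ℝ) + 1))) = X / (8 * a) := by rw [ha]; ring
      _ ≤ L := hL3
  · rw [← mul_div_assoc, ← mul_div_assoc, div_lt_one hM0]
    calc (b + 1) * (A * ((B ^ L : ℕ) : ℝ) ^ (A + 1) * (A * ((B ^ L : ℕ) : ℝ) ^ A))
        = (b + 1) * ((A : ℝ) ^ 2 * ((B ^ L : ℕ) : ℝ) ^ (2 * A + 1)) := by ring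
      _ < M := hkey
  · rcases Nat.eq_zero_or_pos A with h0 | hpos
    · rw [h0]; simp
    have hA1 : (1 : ℝ) ≤ A := by exact_mod_cast hpos
    have hb1 : (1 : ℝ) ≤ b + 1 := by
      have : (0 : ℝ) ≤ b := Nat.cast_nonneg b
      linarith
    calc A * ((B ^ L : ℕ) : ℝ) ^ (A + 1) ≤ (A : ℝ) ^ 2 * ((B ^ L : ℕ) : ℝ) ^ (2 * A + 1) := by
          apply mul_le_mul _ (pow_le_pow_right₀ hH1 (by omega)) (by positivity) (by positivity)
          nlinarith
      _ = 1 * ((A : ℝ) ^ 2 * ((B ^ L : ℕ) : ℝ) ^ (2 * A + 1)) := (one_mul _).symm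
      _ ≤ (b + 1) * ((A : ℝ) ^ 2 * ((B ^ L : ℕ) : ℝ) ^ (2 * A + 1)) := by gcongr
      _ ≤ M := hkey.le

/-- `(1 - 1 / (2 B)) ^ L ≤ exp (-L / (2 B))` -/
lemma pow_le_exp {B : ℝ} (hB : 1 ≤ B) (L : ℕ) : (1 - 1 / (2 * B)) ^ L ≤ Real.exp (-(L / (2 * B))) := by
  have h1 : 1 - 1 / (2 * B) ≤ Real.exp (-(1 / (2 * B))) := by
    have := Real.add_one_le_exp (-(1 / (2 * B)))
    linarith
  have h0 : 0 ≤ 1 - 1 / (2 * B) := by
    rw [sub_nonneg, div_le_one (by positivity)]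
    linarith
  calc (1 - 1 / (2 * B)) ^ L ≤ (Real.exp (-(1 / (2 * B)))) ^ L := pow_le_pow_left₀ h0 h1 L
    _ = _ := by rw [← Real.exp_nat_mul]; congr 1; ring

lemma weylFam_mono {s : Finset ℕ} {w u : ℕ → ℝ} {α : ℝ} {A : ℕ} {v₀ v₁ M : ℝ} (h : WeylFam s w u α A v₀ M)
    (hv : v₀ ≤ v₁) : WeylFam s w u α A v₁ M := fun t ht v h1 h2 h3 => h t ht v (hv.trans h1) h2 h3

/-- **Words which stand only finitely often: the general bound.** -/
theorem inf_bound (A : ℕ) (hA : 1 ≤ A) : ∃ c C : ℝ, 0 < c ∧ 1 ≤ C ∧ ∀ (s : Finset ℕ) (w u : ℕ → ℝ) (α : ℝ) (M : ℕ),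
    (∀ n ∈ s, 0 ≤ w n) → 1 ≤ M → WeylFam s w u α A (A + Real.log M) M → Irrational α → ∀ b k : ℕ, 2 ≤ b → 1 ≤ k →
    ∀ E : Finset ℕ, E ⊆ s → (∀ n ∈ E, ∃ W < b ^ k, ¬ {i | Stands b k W (u n) i}.Infinite) →
    ∑ n ∈ E, w n ≤ C * (∑ n ∈ s, w n) * (b : ℝ) ^ k * Real.exp (-(c * Real.log M / (k * (b : ℝ) ^ k * Real.log b))) := by
  obtain ⟨X₀, hX1, hX2, hpar⟩ := params A
  set c : ℝ := 1 / (16 * (2 * A + 1)) with hc
  have hc0 : 0 < c := by positivity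
  refine ⟨c, max 10 (Real.exp (c * X₀)), hc0, le_trans (by norm_num) (le_max_left _ _),
    fun s w u α M hw hM hF hα b k hb hk E hE hE' => ?_⟩
  have hW0 : 0 ≤ ∑ n ∈ s, w n := sum_nonneg hw
  set B : ℕ := b ^ k with hB
  have hbB : b ≤ B := by
    calc b = b ^ 1 := (pow_one b).symm
      _ ≤ b ^ k := Nat.pow_le_pow_right (by omega) hk
  have hBr : (2 : ℝ) ≤ B := by exact_mod_cast hb.trans hbB
  have hB0 : (0 : ℝ) < B := by linarith
  have hBe : (b : ℝ) ^ k = B := by rw [hB]; push_cast; rfl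
  have hlB : Real.log B = k * Real.log b := by rw [← hBe, Real.log_pow]
  have hlb : 0 < Real.log b := Real.log_pos (by exact_mod_cast (by omega : 1 < b))
  have hlB0 : 0 < Real.log B := Real.log_pos (by linarith)
  have hM1 : (1 : ℝ) ≤ M := by exact_mod_cast hM
  have hlM : 0 ≤ Real.log M := Real.log_nonneg hM1
  set X := Real.log M / Real.log B with hX
  have hX0 : 0 ≤ X := by positivity
  have hexp : c * Real.log M / (k * (b : ℝ) ^ k * Real.log b) = c * X / B := by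
    rw [hBe, hX, hlB]
    have : (0 : ℝ) < k := by exact_mod_cast hk
    field_simp
  rw [hexp, hBe]
  rcases lt_or_ge X X₀ with hlt | hge
  · calc ∑ n ∈ E, w n ≤ ∑ n ∈ s, w n := sum_le_sum_of_subset_of_nonneg hE fun n hn _ => hw n hn
      _ = 1 * (∑ n ∈ s, w n) * 1 * 1 := by ring
      _ ≤ Real.exp (c * X₀) * (∑ n ∈ s, w n) * B * Real.exp (-(c * X / B)) := by
          have h1 : 1 ≤ Real.exp (c * X₀) * Real.exp (-(c * X / B)) := by
            rw [← Real.exp_add]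
            apply Real.one_le_exp
            have : c * X / B ≤ c * X₀ := by
              rw [div_le_iff₀ hB0]
              have h2 : c * X ≤ c * X₀ := by gcongr
              have h3 : 0 ≤ c * X₀ := by
                have : 0 ≤ X₀ := by linarith
                positivity
              nlinarith
            linarith
          calc 1 * (∑ n ∈ s, w n) * 1 * 1 = 1 * (∑ n ∈ s, w n) * 1 := by ring
            _ ≤ (Real.exp (c * X₀) * Real.exp (-(c * X / B))) * (∑ n ∈ s, w n) * B := by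
                gcongr
                linarith
            _ = _ := by ring
      _ ≤ _ := by
          gcongr
          exact le_max_right _ _
  · obtain ⟨L, hL⟩ : ∃ L : ℕ, L = ⌊X / (4 * (2 * A + 1))⌋₊ := ⟨_, rfl⟩
    obtain ⟨p1, p2, _, p4⟩ := hpar b B M hb hbB hM hge L hL
    have hM0 : (0 : ℝ) < M := by linarith
    have hH : 1 ≤ B ^ L := Nat.one_le_pow _ _ (by omega)
    have hgood : ∀ i₀, ∃ i, i₀ ≤ i ∧ Good s w u b (B ^ L) i :=
      good_inf hM0 hF hα hb hH p1 p2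
    have h1 := inf_words hw (by omega : 1 ≤ b) hgood E hE fun n hn => by
      obtain ⟨W, hW, hfin⟩ := hE' n hn
      refine ⟨W, hW, ?_⟩
      rw [Nat.frequently_atTop_iff_infinite]
      exact hfin
    rw [hBe] at h1
    refine h1.trans ?_
    have h2 := pow_le_exp (by linarith : (1 : ℝ) ≤ B) L
    have h3 : Real.exp (-(L / (2 * (B : ℝ)))) ≤ Real.exp (-(c * X / B)) := by
      apply Real.exp_le_exp.2
      rw [neg_le_neg_iff]
      have e : c * X / B = (X / (8 * (2 * A + 1))) / (2 * B) := by rw [hc]; field_simp; ring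
      rw [e]
      gcongr
    calc 10 * (∑ n ∈ s, w n) * (B * (1 - 1 / (2 * (B : ℝ))) ^ L) ≤ 10 * (∑ n ∈ s, w n) * (B * Real.exp (-(c * X / B))) := by
          gcongr
          exact h2.trans h3
      _ = 10 * (∑ n ∈ s, w n) * B * Real.exp (-(c * X / B)) := by ring
      _ ≤ _ := by
          gcongr
          exact le_max_left _ _

end Pool.Agent.N710.PW
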