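import Mathlib
import Pool.Agent.N710.PW.Par

/-!
# Words which stand often: the general bound
-/

set_option autoImplicit false

namespace Pool.Agent.N710.PW

open Finset Filter

/-- **Words which stand often: the general bound.** -/
theorem often_bound (A μ b k : ℕ) (hA : 1 ≤ A) (hb : 2 ≤ b) (hk : 1 ≤ k) : ∃ c C : ℝ, 0 < c ∧ 1 ≤ C ∧
    ∀ (s : Finset ℕ) (w u : ℕ → ℝ) (α : ℝ) (M : ℕ), (∀ n ∈ s, 0 ≤ w n) → 2 ≤ M →
    WeylFam s w u α A (A + Real.log M) M → (∀ (p : ℤ) (q : ℕ), 2 ≤ q → 1 / (q : ℝ) ^ μ ≤ |α - p / q|) →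
    ∀ N : ℕ, ∀ E : Finset ℕ, E ⊆ s →
    (∀ n ∈ E, ∃ W < b ^ k, (cnt b k W (u n) N : ℝ) < c * Real.log M * Real.log (N / (C * Real.log M))) →
    ∑ n ∈ E, w n ≤ C * (∑ n ∈ s, w n) * (M : ℝ) ^ (-c) := by
  obtain ⟨X₀, hX1, hX2, hpar⟩ := params A
  set B : ℕ := b ^ k with hB
  have hbB : b ≤ B := by
    calc b = b ^ 1 := (pow_one b).symm
      _ ≤ b ^ k := Nat.pow_le_pow_right (by omega) hk
  have hb2 : (2 : ℝ) ≤ b := by exact_mod_cast hb
  have hb0 : (0 : ℝ) < b := by linarith
  have hBr : (2 : ℝ) ≤ B := by exact_mod_cast hb.trans hbB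
  have hB0 : (0 : ℝ) < B := by linarith
  have hBe : (b : ℝ) ^ k = B := by rw [hB]; push_cast; rfl
  have hlB : Real.log B = k * Real.log b := by rw [← hBe, Real.log_pow]
  have hlb : 0 < Real.log b := Real.log_pos (by linarith)
  have hlB0 : 0 < Real.log B := Real.log_pos (by linarith)
  have hl2 := Real.log_two_gt_d9
  have hl20 : 0 < Real.log 2 := by linarith
  have hlb2 : Real.log 2 ≤ Real.log b := Real.log_le_log (by norm_num) hb2
  have hμ : (2 : ℝ) ≤ μ + 2 := by
    have : (0 : ℝ) ≤ μ := Nat.cast_nonneg μ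
    linarith
  have hlμ : Real.log 2 ≤ Real.log ((μ : ℝ) + 2) := Real.log_le_log (by norm_num) hμ
  have hlμ0 : 0 < Real.log ((μ : ℝ) + 2) := by linarith
  set a : ℝ := 2 * A + 1 with ha
  have ha1 : 1 ≤ a := by
    have : (0 : ℝ) ≤ A := Nat.cast_nonneg A
    rw [ha]; linarith
  have ha0 : 0 < a := by linarith
  set c : ℝ := 1 / (64 * B * a * Real.log B * Real.log (μ + 2)) with hc
  have hc0 : 0 < c := by positivity
  have hX₀0 : 0 ≤ X₀ := by linarith
  set C : ℝ := 5 * (μ + 2) + 20 * B + Real.exp (c * (X₀ * Real.log B)) with hC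
  have hC1 : 1 ≤ C := by
    have := Real.exp_pos (c * (X₀ * Real.log B))
    rw [hC]; linarith
  refine ⟨c, C, hc0, hC1, fun s w u α M hw hM hF hα N E hE hE' => ?_⟩
  have hW0 : 0 ≤ ∑ n ∈ s, w n := sum_nonneg hw
  have hM2 : (2 : ℝ) ≤ M := by exact_mod_cast hM
  have hM0 : (0 : ℝ) < M := by linarith
  have hlM2 : Real.log 2 ≤ Real.log M := Real.log_le_log (by norm_num) hM2
  have hlM : 0 < Real.log M := by linarith
  have hMc0 : 0 < (M : ℝ) ^ (-c) := Real.rpow_pos_of_pos hM0 _
  set X := Real.log M / Real.log B with hX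
  have hXM : X * Real.log B = Real.log M := by rw [hX]; field_simp
  have hX0 : 0 < X := by positivity
  have hMc : (M : ℝ) ^ (-c) = Real.exp (-(c * (X * Real.log B))) := by
    rw [Real.rpow_def_of_pos hM0, hXM]; congr 1; ring
  rcases lt_or_ge X X₀ with hlt | hge
  · calc ∑ n ∈ E, w n ≤ ∑ n ∈ s, w n := sum_le_sum_of_subset_of_nonneg hE fun n hn _ => hw n hn
      _ = 1 * (∑ n ∈ s, w n) := (one_mul _).symm
      _ ≤ (C * (M : ℝ) ^ (-c)) * (∑ n ∈ s, w n) := by
          apply mul_le_mul_of_nonneg_right _ hW0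
          calc (1 : ℝ) ≤ Real.exp (c * (X₀ * Real.log B)) * (M : ℝ) ^ (-c) := by
                rw [hMc, ← Real.exp_add]
                apply Real.one_le_exp
                have : c * (X * Real.log B) ≤ c * (X₀ * Real.log B) := by gcongr
                linarith
            _ ≤ C * (M : ℝ) ^ (-c) := by
                apply mul_le_mul_of_nonneg_right _ hMc0.le
                rw [hC]
                have : (0 : ℝ) ≤ 5 * (μ + 2) + 20 * B := by positivity
                linarith
      _ = _ := by ring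
  -- the trivial range of `N`
  rcases le_or_gt (Real.log (N / (C * Real.log M))) 0 with hY | hY
  · have : E = ∅ := by
      rw [eq_empty_iff_forall_notMem]
      intro n hn
      obtain ⟨W, _, h1⟩ := hE' n hn
      have h2 : (0 : ℝ) ≤ cnt b k W (u n) N := Nat.cast_nonneg _
      have h3 : c * Real.log M * Real.log (N / (C * Real.log M)) ≤ 0 :=
        mul_nonpos_of_nonneg_of_nonpos (by positivity) hY
      linarith
    rw [this, sum_empty]
    positivity
  obtain ⟨L, hL⟩ : ∃ L : ℕ, L = ⌊X / (4 * (2 * A + 1))⌋₊ := ⟨_, rfl⟩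
  obtain ⟨p1, p2, p3, p4⟩ := hpar b B M hb hbB (by omega) hge L hL
  have hH : 1 ≤ B ^ L := Nat.one_le_pow _ _ (by omega)
  obtain ⟨r, hr⟩ : ∃ r : ℕ, r = ⌈Real.log M / Real.log b⌉₊ := ⟨_, rfl⟩
  have hbr : (M : ℝ) ≤ (b : ℝ) ^ r := by
    rw [← Real.rpow_natCast, Real.rpow_def_of_pos hb0]
    calc (M : ℝ) = Real.exp (Real.log M) := (Real.exp_log hM0).symm
      _ = Real.exp (Real.log b * (Real.log M / Real.log b)) := by congr 1; field_simp
      _ ≤ Real.exp (Real.log b * r) := by
          apply Real.exp_le_exp.2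
          gcongr
          rw [hr]; exact Nat.le_ceil _
  obtain ⟨g, hg1, hg2, hg3⟩ := good_seq (Good s w u b (B ^ L)) μ r (k * L)
    (good_near hM0 hF hα hb hH p1 p2 r (p3.trans hbr))
  -- the size of `D`
  set D : ℕ := k * L + r + 1 with hD
  have hD0 : (0 : ℝ) < D := by rw [hD]; positivity
  have hDle : (D : ℝ) ≤ 5 * Real.log M := by
    have hk0 : (0 : ℝ) < k := by exact_mod_cast hk
    have h1 : (L : ℝ) ≤ X / (4 * (2 * A + 1)) := by rw [hL]; exact Nat.floor_le (by positivity)
    have h2 : (k : ℝ) * L ≤ Real.log M / Real.log b / 4 := by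
      calc (k : ℝ) * L ≤ k * (X / (4 * (2 * A + 1))) := by gcongr
        _ ≤ k * (X / (4 * 1)) := by
            gcongr
        _ = Real.log M / Real.log b / 4 := by
            rw [hX, hlB]; field_simp
    have h3 : (r : ℝ) < Real.log M / Real.log b + 1 := by rw [hr]; exact Nat.ceil_lt_add_one (by positivity)
    have h4 : Real.log M / Real.log b ≤ Real.log M / Real.log 2 := by gcongr
    have h5 : Real.log M / Real.log 2 ≤ 1.4427 * Real.log M := by
      rw [div_le_iff₀ hl20]
      nlinarith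
    rw [hD]
    push_cast
    nlinarith
  set Y := Real.log (N / (C * Real.log M)) with hYd
  have hN0 : (0 : ℝ) < N := by
    by_contra hcon
    have : (N : ℝ) = 0 := le_antisymm (not_lt.1 hcon) (Nat.cast_nonneg N)
    rw [hYd, this, zero_div, Real.log_zero] at hY
    exact lt_irrefl _ hY
  have hND : Y + Real.log (μ + 2) ≤ Real.log (N / D) := by
    rw [hYd, ← Real.log_mul (by positivity) (by positivity)]
    apply Real.log_le_log (by positivity)
    rw [div_mul_eq_mul_div, div_le_div_iff₀ (by positivity) hD0]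
    have h1 : ((μ : ℝ) + 2) * D ≤ C * Real.log M := by
      calc ((μ : ℝ) + 2) * D ≤ (μ + 2) * (5 * Real.log M) := by gcongr
        _ = (5 * (μ + 2)) * Real.log M := by ring
        _ ≤ _ := by
            apply mul_le_mul_of_nonneg_right _ hlM.le
            rw [hC]
            have := Real.exp_pos (c * (X₀ * Real.log B))
            linarith
    calc (N : ℝ) * (μ + 2) * D = N * ((μ + 2) * D) := by ring
      _ ≤ N * (C * Real.log M) := by gcongr
  obtain ⟨T, hT⟩ : ∃ T : ℕ, T = ⌊Real.log (N / D) / Real.log (μ + 2)⌋₊ := ⟨_, rfl⟩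
  have hT1 : (T : ℝ) * Real.log (μ + 2) ≤ Real.log (N / D) := by
    rw [← le_div_iff₀ hlμ0, hT]
    apply Nat.floor_le
    apply div_nonneg _ hlμ0.le
    linarith
  have hT2 : Y / Real.log (μ + 2) ≤ T := by
    have h1 : Real.log (N / D) / Real.log (μ + 2) < T + 1 := by rw [hT]; exact Nat.lt_floor_add_one _
    have h2 : Y / Real.log (μ + 2) + 1 ≤ Real.log (N / D) / Real.log (μ + 2) := by
      rw [le_div_iff₀ hlμ0, add_mul, div_mul_cancel₀ _ hlμ0.ne', one_mul]
      exact hND
    linarith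
  have hTN : ∀ t, t < T → g t + k * L ≤ N := by
    intro t ht
    have h1 : (μ + 2) ^ T * D ≤ N := by
      have h2 : (((μ + 2) ^ T * D : ℕ) : ℝ) ≤ N := by
        push_cast
        rw [← le_div_iff₀ hD0, ← Real.rpow_natCast, Real.rpow_def_of_pos (by positivity)]
        calc Real.exp (Real.log ((μ : ℝ) + 2) * T) ≤ Real.exp (Real.log (N / D)) := by
              apply Real.exp_le_exp.2; linarith
          _ = N / D := Real.exp_log (by positivity)
      exact_mod_cast h2
    refine (hg3 t).trans (le_trans ?_ h1)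
    apply Nat.mul_le_mul_right
    exact Nat.pow_le_pow_right (by omega) (by omega)
  obtain ⟨m, hm⟩ : ∃ m : ℕ, m = ⌊(L : ℝ) / (4 * B)⌋₊ := ⟨_, rfl⟩
  have hm1 : (m : ℝ) ≤ L / (4 * B) := by rw [hm]; exact Nat.floor_le (by positivity)
  have hm2 : (L : ℝ) / (4 * B) < m + 1 := by rw [hm]; exact Nat.lt_floor_add_one _
  have h1 := often_words hw (by omega : 1 ≤ b) hk g hg2 hTN (fun t _ => hg1 t) m E hE (by
    intro n hn
    obtain ⟨W, hW, h1⟩ := hE' n hn
    refine ⟨W, hW, ?_⟩
    have h2 : (2 : ℝ) * cnt b k W (u n) N < T * (m + 1) := by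
      calc (2 : ℝ) * cnt b k W (u n) N < 2 * (c * Real.log M * Y) := by linarith
        _ = (Y / Real.log (μ + 2)) * ((X / (8 * a)) / (4 * B)) := by
            rw [hc, ← hXM]; field_simp; ring
        _ ≤ T * (L / (4 * B)) := by gcongr
        _ ≤ T * (m + 1) := by gcongr
    exact_mod_cast h2)
  rw [hBe] at h1
  refine h1.trans ?_
  have h2 : 2 ^ m * (1 - 1 / (2 * (B : ℝ))) ^ L ≤ (M : ℝ) ^ (-c) := by
    calc (2 : ℝ) ^ m * (1 - 1 / (2 * (B : ℝ))) ^ L ≤ Real.exp (m) * Real.exp (-(L / (2 * B))) := by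
          apply mul_le_mul _ (pow_le_exp (by linarith) L) _ (Real.exp_pos _).le
          · calc (2 : ℝ) ^ m ≤ (Real.exp 1) ^ m := by
                  apply pow_le_pow_left₀ (by norm_num)
                  have := Real.exp_one_gt_d9
                  linarith
              _ = Real.exp m := by rw [← Real.exp_nat_mul, mul_one]
          · apply pow_nonneg
            rw [sub_nonneg, div_le_one (by positivity)]
            linarith
      _ = Real.exp (m - L / (2 * B)) := by rw [← Real.exp_add]; rfl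
      _ ≤ Real.exp (-(c * (X * Real.log B))) := by
          apply Real.exp_le_exp.2
          have h3 : (m : ℝ) - L / (2 * B) ≤ -(L / (4 * B)) := by
            have : (L : ℝ) / (2 * B) = L / (4 * B) + L / (4 * B) := by field_simp; ring
            linarith
          refine h3.trans ?_
          rw [neg_le_neg_iff]
          calc c * (X * Real.log B) = (X / (8 * a)) / (4 * B) / (2 * Real.log (μ + 2)) := by
                rw [hc]; field_simp; ring
            _ ≤ (X / (8 * a)) / (4 * B) / 1 := by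
                apply div_le_div_of_nonneg_left (by positivity) one_pos
                linarith
            _ ≤ L / (4 * B) := by rw [div_one]; gcongr
      _ = _ := hMc.symm
  calc 20 * (∑ n ∈ s, w n) * (B * (2 ^ m * (1 - 1 / (2 * (B : ℝ))) ^ L)) ≤ 20 * (∑ n ∈ s, w n) * (B * (M : ℝ) ^ (-c)) := by
        gcongr
    _ = (20 * B) * ((∑ n ∈ s, w n) * (M : ℝ) ^ (-c)) := by ring
    _ ≤ C * ((∑ n ∈ s, w n) * (M : ℝ) ^ (-c)) := by
        apply mul_le_mul_of_nonneg_right _ (by positivity)
        rw [hC]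
        have := Real.exp_pos (c * (X₀ * Real.log B))
        have : (0 : ℝ) ≤ 5 * (μ + 2) := by positivity
        linarith
    _ = _ := by ring

end Pool.Agent.N710.PW
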