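import Mathlib
import Pool.Agent.N710.PW.Often
import Pool.Agent.H847R3.SuppF

/-!
# The final bounds
-/

set_option autoImplicit false

namespace Pool.Agent.N710.PW

open Finset Filter Polynomial

/-- every word of `k` digits stands infinitely often in `y` -/
def Rich (b k : ℕ) (y : ℝ) : Prop := ∀ W < b ^ k, {i | Stands b k W y i}.Infinite

lemma stands_add_int (b k W : ℕ) (y : ℝ) (z : ℤ) (i : ℕ) : Stands b k W (y + z) i ↔ Stands b k W y i := by
  unfold Stands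
  have h1 : (b : ℝ) ^ (i + k) * (y + z) = (b : ℝ) ^ (i + k) * y + (((b : ℤ) ^ (i + k) * z : ℤ) : ℝ) := by
    push_cast; ring
  have h2 : (b : ℤ) ^ (i + k) * z = (b : ℤ) ^ k * ((b : ℤ) ^ i * z) := by rw [pow_add]; ring
  rw [h1, Int.floor_add_intCast, h2, Int.add_mul_emod_self_left]

lemma rich_add_int (b k : ℕ) (y : ℝ) (z : ℤ) : Rich b k (y + z) ↔ Rich b k y := by
  unfold Rich
  simp only [stands_add_int]

lemma one_le_add_log {A M : ℕ} (hA : 1 ≤ A) (hM : 1 ≤ M) : (1 : ℝ) ≤ A + Real.log M := by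
  have h1 : (1 : ℝ) ≤ A := by exact_mod_cast hA
  have h2 : 0 ≤ Real.log M := Real.log_nonneg (by exact_mod_cast hM)
  linarith

/-- **Polynomials with irrational leading coefficient, uniformly.** -/
theorem poly_inf (d : ℕ) (hd : 1 ≤ d) : ∃ c C : ℝ, 0 < c ∧ 0 < C ∧ ∀ f : ℝ[X], f.natDegree ≤ d → Irrational (f.coeff d) →
    ∀ b k M : ℕ, 2 ≤ b → 1 ≤ k → 1 ≤ M →
    ({n : ℕ | n < M ∧ ¬ Rich b k (f.eval (n : ℝ))}.ncard : ℝ) ≤
      C * (b : ℝ) ^ k * M * Real.exp (-(c * Real.log M / (k * (b : ℝ) ^ k * Real.log b))) := by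
  classical
  obtain ⟨A, hA, hF⟩ := weylFam_poly d hd
  obtain ⟨c, C, hc, hC, hmain⟩ := inf_bound A hA
  refine ⟨c, C, hc, by linarith, fun f hf hirr b k M hb hk hM => ?_⟩
  have h1 := hmain (range M) (fun _ => 1) (fun n => f.eval (n : ℝ)) (f.coeff d) M (fun _ _ => zero_le_one) hM
    (weylFam_mono (hF f hf M hM) (one_le_add_log hA hM)) hirr b k hb hk
    ((range M).filter fun n => ¬ Rich b k (f.eval (n : ℝ))) (filter_subset _ _) (fun n hn => by
      rw [mem_filter] at hn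
      have := hn.2
      unfold Rich at this
      push Not at this
      obtain ⟨W, hW, h⟩ := this
      exact ⟨W, hW, by rw [Set.not_infinite]; exact h⟩)
  have e1 : {n : ℕ | n < M ∧ ¬ Rich b k (f.eval (n : ℝ))} =
      (((range M).filter fun n => ¬ Rich b k (f.eval (n : ℝ)) : Finset ℕ) : Set ℕ) := by
    ext n; simp
  rw [e1, Set.ncard_coe_finset]
  simp only [sum_const, card_range, nsmul_eq_mul, mul_one] at h1
  refine h1.trans (le_of_eq ?_)
  ring

lemma log2_card_le {s : Finset ℕ} (hs : ∀ p ∈ s, p.Prime) :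
    (s.card : ℝ) * Real.log 2 ≤ ∑ n ∈ s, ArithmeticFunction.vonMangoldt n := by
  rw [← nsmul_eq_mul]
  refine card_nsmul_le_sum _ _ _ fun p hp => ?_
  rw [ArithmeticFunction.vonMangoldt_apply_prime (hs p hp)]
  exact Real.log_le_log (by norm_num) (by exact_mod_cast (hs p hp).two_le)

/-- **Prime arguments.** -/
theorem prime_inf (h : ℤ[X]) (hd : 1 ≤ h.natDegree) : ∃ c C : ℝ, 0 < c ∧ 0 < C ∧ ∀ x y : ℝ, Irrational x →
    ∀ b k M : ℕ, 2 ≤ b → 1 ≤ k → 1 ≤ M →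
    ({p : ℕ | p.Prime ∧ p ≤ M ∧ ¬ Rich b k (y + ((h.eval (p : ℤ) : ℤ) : ℝ) * x)}.ncard : ℝ) ≤
      C * (b : ℝ) ^ k * M * Real.exp (-(c * Real.log M / (k * (b : ℝ) ^ k * Real.log b))) := by
  classical
  obtain ⟨A, hA, hF⟩ := weylFam_prime h hd
  obtain ⟨c, C, hc, hC, hmain⟩ := inf_bound A hA
  have hl2 := Real.log_two_gt_d9
  refine ⟨c, 12 * C, hc, by linarith, fun x y hx b k M hb hk hM => ?_⟩
  set E : Finset ℕ := (Icc 1 M).filter (fun p : ℕ => p.Prime ∧ ¬ Rich b k (y + ((h.eval (p : ℤ) : ℤ) : ℝ) * x)) with hE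
  have h1 := hmain (Icc 1 M) (fun n => ArithmeticFunction.vonMangoldt n)
    (fun n => y + ((h.eval (n : ℤ) : ℤ) : ℝ) * x) x M (fun _ _ => ArithmeticFunction.vonMangoldt_nonneg) hM
    (hF x y M hM) hx b k hb hk E (filter_subset _ _) (fun n hn => by
      rw [mem_filter] at hn
      have := hn.2.2
      unfold Rich at this
      push Not at this
      obtain ⟨W, hW, h⟩ := this
      exact ⟨W, hW, by rw [Set.not_infinite]; exact h⟩)
  have e1 : {p : ℕ | p.Prime ∧ p ≤ M ∧ ¬ Rich b k (y + ((h.eval (p : ℤ) : ℤ) : ℝ) * x)} = (E : Set ℕ) := by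
    ext p
    rw [hE]
    simp only [Set.mem_setOf_eq, coe_filter, mem_Icc]
    constructor
    · rintro ⟨h1, h2, h3⟩; exact ⟨⟨h1.pos, h2⟩, h1, h3⟩
    · rintro ⟨⟨_, h2⟩, h1, h3⟩; exact ⟨h1, h2, h3⟩
  rw [e1, Set.ncard_coe_finset]
  have h2 := log2_card_le (s := E) (fun p hp => (mem_filter.1 hp).2.1)
  have h3 := psi_upper M
  have hb0 : (0 : ℝ) < b := by exact_mod_cast (by omega : 0 < b)
  have hexp := Real.exp_pos (-(c * Real.log M / (k * (b : ℝ) ^ k * Real.log b)))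
  set X := Real.exp (-(c * Real.log M / (k * (b : ℝ) ^ k * Real.log b))) with hX
  have h4 : (E.card : ℝ) * Real.log 2 ≤ 6 * (C * (b : ℝ) ^ k * M * X) := by
    calc (E.card : ℝ) * Real.log 2 ≤ C * (∑ n ∈ Icc 1 M, ArithmeticFunction.vonMangoldt n) * (b : ℝ) ^ k * X := h2.trans h1
      _ ≤ C * (6 * M) * (b : ℝ) ^ k * X := by gcongr
      _ = _ := by ring
  have h5 : (E.card : ℝ) * (1 / 2) ≤ (E.card : ℝ) * Real.log 2 := by
    gcongr
    linarith
  linarith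

/-- the quantitative form of not being a Liouville number -/
lemma dio_of_good {x : ℝ} (hx : Irrational x) (hL : ¬ Liouville x) :
    ∃ m : ℕ, ∀ (p : ℤ) (q : ℕ), 2 ≤ q → 1 / (q : ℝ) ^ m ≤ |x - p / q| := by
  by_contra hcon
  push Not at hcon
  apply hL
  intro n
  obtain ⟨a, b, hb, hab⟩ := hcon n
  refine ⟨a, b, by exact_mod_cast (by omega : 1 < b), ?_, by push_cast; exact hab⟩
  intro h
  exact hx ⟨(a : ℚ) / b, by rw [h]; push_cast; rfl⟩

/-- **Polynomials, words which stand often.** -/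
theorem poly_often (d : ℕ) (hd : 1 ≤ d) (μ b k : ℕ) (hb : 2 ≤ b) (hk : 1 ≤ k) : ∃ c C : ℝ, 0 < c ∧ 1 ≤ C ∧
    ∀ f : ℝ[X], f.natDegree ≤ d → (∀ (p : ℤ) (q : ℕ), 2 ≤ q → 1 / (q : ℝ) ^ μ ≤ |f.coeff d - p / q|) →
    ∀ M : ℕ, 2 ≤ M → ∀ N : ℕ,
    ({n : ℕ | n < M ∧ ∃ W < b ^ k, (cnt b k W (f.eval (n : ℝ)) N : ℝ) <
        c * Real.log M * Real.log (N / (C * Real.log M))}.ncard : ℝ) ≤ C * (M : ℝ) ^ (1 - c) := by
  classical
  obtain ⟨A, hA, hF⟩ := weylFam_poly d hd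
  obtain ⟨c, C, hc, hC, hmain⟩ := often_bound A μ b k hA hb hk
  refine ⟨c, C, hc, hC, fun f hf hdio M hM N => ?_⟩
  have h1 := hmain (range M) (fun _ => 1) (fun n => f.eval (n : ℝ)) (f.coeff d) M (fun _ _ => zero_le_one) hM
    (weylFam_mono (hF f hf M (by omega)) (one_le_add_log hA (by omega))) hdio N
    ((range M).filter fun n => ∃ W < b ^ k, (cnt b k W (f.eval (n : ℝ)) N : ℝ) <
        c * Real.log M * Real.log (N / (C * Real.log M))) (filter_subset _ _) (fun n hn => (mem_filter.1 hn).2)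
  have e1 : {n : ℕ | n < M ∧ ∃ W < b ^ k, (cnt b k W (f.eval (n : ℝ)) N : ℝ) <
        c * Real.log M * Real.log (N / (C * Real.log M))} =
      (((range M).filter fun n => ∃ W < b ^ k, (cnt b k W (f.eval (n : ℝ)) N : ℝ) <
        c * Real.log M * Real.log (N / (C * Real.log M)) : Finset ℕ) : Set ℕ) := by
    ext n; simp
  rw [e1, Set.ncard_coe_finset]
  simp only [sum_const, card_range, nsmul_eq_mul, mul_one] at h1
  refine h1.trans (le_of_eq ?_)
  have hM0 : (0 : ℝ) < M := by exact_mod_cast (by omega : 0 < M)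
  rw [sub_eq_add_neg, Real.rpow_add hM0, Real.rpow_one]
  ring

/-- **Primes, words which stand often.** -/
theorem prime_often (h : ℤ[X]) (hd : 1 ≤ h.natDegree) (μ b k : ℕ) (hb : 2 ≤ b) (hk : 1 ≤ k) : ∃ c C : ℝ, 0 < c ∧ 1 ≤ C ∧
    ∀ x y : ℝ, (∀ (p : ℤ) (q : ℕ), 2 ≤ q → 1 / (q : ℝ) ^ μ ≤ |x - p / q|) →
    ∀ M : ℕ, 2 ≤ M → ∀ N : ℕ,
    ({p : ℕ | p.Prime ∧ p ≤ M ∧ ∃ W < b ^ k, (cnt b k W (y + ((h.eval (p : ℤ) : ℤ) : ℝ) * x) N : ℝ) <
        c * Real.log M * Real.log (N / (C * Real.log M))}.ncard : ℝ) ≤ C * (M : ℝ) ^ (1 - c) := by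
  classical
  obtain ⟨A, hA, hF⟩ := weylFam_prime h hd
  obtain ⟨c, C, hc, hC, hmain⟩ := often_bound A μ b k hA hb hk
  have hl2 := Real.log_two_gt_d9
  refine ⟨c, 12 * C, hc, by linarith, fun x y hdio M hM N => ?_⟩
  have hM2 : (2 : ℝ) ≤ M := by exact_mod_cast hM
  have hM0 : (0 : ℝ) < M := by linarith
  have hlM : 0 < Real.log M := Real.log_pos (by linarith)
  -- the larger constant makes the condition stronger
  have hmono : ∀ z : ℝ, z < c * Real.log M * Real.log (N / (12 * C * Real.log M)) → 0 ≤ z →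
      z < c * Real.log M * Real.log (N / (C * Real.log M)) := by
    intro z hz hz0
    refine hz.trans_le ?_
    rcases Nat.eq_zero_or_pos N with h0 | hpos
    · exfalso
      rw [h0] at hz
      simp only [Nat.cast_zero, zero_div, Real.log_zero, mul_zero] at hz
      linarith
    have hN0 : (0 : ℝ) < N := by exact_mod_cast hpos
    have : Real.log (N / (12 * C * Real.log M)) ≤ Real.log (N / (C * Real.log M)) := by
      apply Real.log_le_log (by positivity)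
      apply div_le_div_of_nonneg_left hN0.le (by positivity)
      have : 0 < C * Real.log M := by positivity
      nlinarith
    gcongr
  set E : Finset ℕ := (Icc 1 M).filter (fun p : ℕ => p.Prime ∧ ∃ W < b ^ k, (cnt b k W (y + ((h.eval (p : ℤ) : ℤ) : ℝ) * x) N : ℝ) <
        c * Real.log M * Real.log (N / (12 * C * Real.log M))) with hE
  have h1 := hmain (Icc 1 M) (fun n => ArithmeticFunction.vonMangoldt n)
    (fun n => y + ((h.eval (n : ℤ) : ℤ) : ℝ) * x) x M (fun _ _ => ArithmeticFunction.vonMangoldt_nonneg) hM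
    (hF x y M (by omega)) hdio N E (filter_subset _ _) (fun n hn => by
      rw [mem_filter] at hn
      obtain ⟨W, hW, h⟩ := hn.2.2
      exact ⟨W, hW, hmono _ h (Nat.cast_nonneg _)⟩)
  have e1 : {p : ℕ | p.Prime ∧ p ≤ M ∧ ∃ W < b ^ k, (cnt b k W (y + ((h.eval (p : ℤ) : ℤ) : ℝ) * x) N : ℝ) <
        c * Real.log M * Real.log (N / (12 * C * Real.log M))} = (E : Set ℕ) := by
    ext p
    rw [hE]
    simp only [Set.mem_setOf_eq, coe_filter, mem_Icc]
    constructor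
    · rintro ⟨h1, h2, h3⟩; exact ⟨⟨h1.pos, h2⟩, h1, h3⟩
    · rintro ⟨⟨_, h2⟩, h1, h3⟩; exact ⟨h1, h2, h3⟩
  rw [e1, Set.ncard_coe_finset]
  have h2 := log2_card_le (s := E) (fun p hp => (mem_filter.1 hp).2.1)
  have h3 := psi_upper M
  have hMc0 : 0 < (M : ℝ) ^ (-c) := Real.rpow_pos_of_pos hM0 _
  have h4 : (E.card : ℝ) * Real.log 2 ≤ 6 * (C * (M * (M : ℝ) ^ (-c))) := by
    calc (E.card : ℝ) * Real.log 2 ≤ C * (∑ n ∈ Icc 1 M, ArithmeticFunction.vonMangoldt n) * (M : ℝ) ^ (-c) := h2.trans h1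
      _ ≤ C * (6 * M) * (M : ℝ) ^ (-c) := by gcongr
      _ = _ := by ring
  have h5 : (E.card : ℝ) * (1 / 2) ≤ (E.card : ℝ) * Real.log 2 := by
    gcongr
    linarith
  rw [sub_eq_add_neg, Real.rpow_add hM0, Real.rpow_one]
  linarith

end Pool.Agent.N710.PW
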