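import Mathlib
import Pool.Agent.N710.PW.Main

/-!
# All polynomials with an irrational coefficient besides the constant one
-/

set_option autoImplicit false

namespace Pool.Agent.N710.PW

open Finset Filter Polynomial

/-- splitting off the top coefficients, if they are rational -/
lemma split_poly (f : ℝ[X]) (hf : ∃ j, 1 ≤ j ∧ Irrational (f.coeff j)) : ∃ (d D : ℕ), 1 ≤ d ∧ 1 ≤ D ∧
    ∀ r : ℕ, ∃ g : ℝ[X], g.natDegree ≤ d ∧ Irrational (g.coeff d) ∧
      ∀ m : ℕ, ∃ z : ℤ, f.eval ((D * m + r : ℕ) : ℝ) = g.eval (m : ℝ) + z := by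
  classical
  set S := f.support.filter (fun j => 1 ≤ j ∧ Irrational (f.coeff j)) with hS
  have hSne : S.Nonempty := by
    obtain ⟨j, h1, h2⟩ := hf
    refine ⟨j, mem_filter.2 ⟨?_, h1, h2⟩⟩
    rw [mem_support_iff]
    exact h2.ne_zero
  set d := S.max' hSne with hd
  have hdS : d ∈ S := S.max'_mem hSne
  obtain ⟨hd1, hd2⟩ : 1 ≤ d ∧ Irrational (f.coeff d) := (mem_filter.1 hdS).2
  have hrat : ∀ j, d < j → ∃ q : ℚ, f.coeff j = q := by
    intro j hj
    by_contra hcon
    have h1 : Irrational (f.coeff j) := by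
      rintro ⟨q, hq⟩
      exact hcon ⟨q, hq.symm⟩
    have h2 : j ∈ S := mem_filter.2 ⟨by rw [mem_support_iff]; exact h1.ne_zero, by omega, h1⟩
    have h3 := S.le_max' j h2
    omega
  choose! qq hqq using hrat
  set T := f.support.filter (fun j => d < j) with hT
  set D := ∏ j ∈ T, (qq j).den with hD
  have hD1 : 1 ≤ D := Nat.one_le_iff_ne_zero.2 (prod_ne_zero_iff.2 fun j _ => (qq j).den_nz)
  have hint : ∀ j ∈ T, ∃ z : ℤ, (D : ℝ) * f.coeff j = z := by
    intro j hj
    obtain ⟨e, he⟩ : (qq j).den ∣ D := dvd_prod_of_mem _ hj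
    refine ⟨e * (qq j).num, ?_⟩
    rw [hqq j (mem_filter.1 hj).2, he]
    push_cast
    have h1 : ((qq j).den : ℝ) * ((qq j : ℚ) : ℝ) = (qq j).num := by
      exact_mod_cast Rat.den_mul_eq_num (qq j)
    linear_combination (e : ℝ) * h1
  set h : ℝ[X] := ∑ j ∈ T, monomial j (f.coeff j) with hh
  have hcoef : ∀ j, h.coeff j = if j ∈ T then f.coeff j else 0 := by
    intro j
    rw [hh, finsetSum_coeff]
    simp only [coeff_monomial]
    rw [sum_ite_eq' T j (fun i => f.coeff i)]
  have hdeg : (f - h).natDegree ≤ d := by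
    rw [natDegree_le_iff_coeff_eq_zero]
    intro j hj
    rw [coeff_sub, hcoef]
    by_cases h0 : f.coeff j = 0
    · rw [h0]; simp
    · rw [if_pos (mem_filter.2 ⟨mem_support_iff.2 h0, hj⟩), sub_self]
  have hlead : (f - h).coeff d = f.coeff d := by
    rw [coeff_sub, hcoef, if_neg, sub_zero]
    intro hcon
    exact lt_irrefl _ (mem_filter.1 hcon).2
  refine ⟨d, D, hd1, hD1, fun r => ⟨(f - h).comp (C (D : ℝ) * X + C (r : ℝ)) + C (h.eval (r : ℝ)), ?_, ?_, ?_⟩⟩
  · refine (natDegree_add_le _ _).trans (max_le ?_ ?_)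
    · rw [natDegree_comp, natDegree_linear (by exact_mod_cast (by omega : D ≠ 0)), mul_one]
      exact hdeg
    · rw [natDegree_C]; omega
  · have h1 : ((f - h).comp (C (D : ℝ) * X + C (r : ℝ)) + C (h.eval (r : ℝ))).coeff d = f.coeff d * (D : ℝ) ^ d := by
      rw [coeff_add, coeff_C, if_neg (by omega), add_zero]
      have h2 : (f - h).natDegree = d := by
        refine le_antisymm hdeg (le_natDegree_of_ne_zero ?_)
        rw [hlead]; exact hd2.ne_zero
      have h3 := coeff_comp_degree_mul_degree (p := f - h) (q := C (D : ℝ) * X + C (r : ℝ)) (by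
        rw [natDegree_linear (by exact_mod_cast (by omega : D ≠ 0))]; omega)
      rw [natDegree_linear (by exact_mod_cast (by omega : D ≠ 0)), mul_one, h2,
        leadingCoeff_linear (by exact_mod_cast (by omega : D ≠ 0))] at h3
      rw [h3, leadingCoeff, h2, hlead]
    rw [h1]
    have h4 : ((D : ℝ) ^ d) = ((D ^ d : ℕ) : ℝ) := by push_cast; rfl
    rw [h4]
    exact hd2.mul_natCast (pow_ne_zero _ (by omega))
  · intro m
    have h1 : ∀ j ∈ T, ∃ z : ℤ, f.coeff j * ((D * m + r : ℕ) : ℝ) ^ j - f.coeff j * (r : ℝ) ^ j = z := by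
      intro j hj
      obtain ⟨z, hz⟩ := hint j hj
      obtain ⟨e, he⟩ : (D : ℤ) ∣ ((D * m + r : ℕ) : ℤ) ^ j - (r : ℤ) ^ j := by
        refine dvd_trans ?_ (sub_dvd_pow_sub_pow _ _ j)
        push_cast
        exact ⟨m, by ring⟩
      refine ⟨e * z, ?_⟩
      have he' : ((D * m + r : ℕ) : ℝ) ^ j - (r : ℝ) ^ j = D * e := by exact_mod_cast he
      push_cast at he' ⊢
      rw [← mul_sub, he', ← hz]
      ring
    choose! zz hzz using h1
    refine ⟨∑ j ∈ T, zz j, ?_⟩
    have h2 : h.eval ((D * m + r : ℕ) : ℝ) - h.eval (r : ℝ) = ((∑ j ∈ T, zz j : ℤ) : ℝ) := by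
      rw [hh, eval_finsetSum, eval_finsetSum, ← sum_sub_distrib, Int.cast_sum]
      refine sum_congr rfl fun j hj => ?_
      rw [eval_monomial, eval_monomial]
      exact hzz j hj
    rw [← h2, eval_add, eval_comp, eval_C, eval_add, eval_mul, eval_C, eval_X, eval_C, eval_sub]
    push_cast
    ring

/-- **All polynomials with an irrational coefficient besides the constant one, in all windows.** -/
theorem gen_inf (f : ℝ[X]) (hf : ∃ j, 1 ≤ j ∧ Irrational (f.coeff j)) : ∃ c C : ℝ, 0 < c ∧ 0 < C ∧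
    ∀ b k J M : ℕ, 2 ≤ b → 1 ≤ k → 1 ≤ M →
    ({n : ℕ | J ≤ n ∧ n < J + M ∧ ¬ Rich b k (f.eval (n : ℝ))}.ncard : ℝ) ≤
      C * (b : ℝ) ^ k * M * Real.exp (-(c * Real.log M / (k * (b : ℝ) ^ k * Real.log b))) := by
  classical
  obtain ⟨d, D, hd, hD, hg⟩ := split_poly f hf
  choose g hg1 hg2 hg3 using hg
  obtain ⟨c, C, hc, hC, hmain⟩ := poly_inf d hd
  have hDr : (1 : ℝ) ≤ D := by exact_mod_cast hD
  have hlD : 0 ≤ Real.log D := Real.log_nonneg hDr
  have hl2 := Real.log_two_gt_d9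
  refine ⟨c, C * (3 * D) * Real.exp (c * Real.log D), hc, by positivity, fun b k J M hb hk hM => ?_⟩
  -- the number of `m`
  obtain ⟨M', hM'⟩ : ∃ M' : ℕ, M' = M / D + 2 := ⟨_, rfl⟩
  obtain ⟨m₀, hm₀⟩ : ∃ m₀ : ℕ, m₀ = J / D := ⟨_, rfl⟩
  set G : ℕ → ℝ[X] := fun r => (g r).comp (X + Polynomial.C (m₀ : ℝ)) with hG
  have hG1 : ∀ r, (G r).natDegree ≤ d := by
    intro r
    rw [hG]
    simp only
    rw [natDegree_comp, natDegree_X_add_C, mul_one]
    exact hg1 r
  have hG2 : ∀ r, Irrational ((G r).coeff d) := by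
    intro r
    have h2 : (g r).natDegree = d := le_antisymm (hg1 r) (le_natDegree_of_ne_zero (hg2 r).ne_zero)
    have h3 := coeff_comp_degree_mul_degree (p := g r) (q := X + Polynomial.C (m₀ : ℝ)) (by
      rw [natDegree_X_add_C]; omega)
    rw [natDegree_X_add_C, mul_one, h2, leadingCoeff_X_add_C, one_pow, mul_one, leadingCoeff, h2] at h3
    rw [hG]
    simp only
    rw [h3]
    exact hg2 r
  have hG3 : ∀ r m : ℕ, (G r).eval (m : ℝ) = (g r).eval ((m₀ + m : ℕ) : ℝ) := by
    intro r m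
    rw [hG]
    simp only
    rw [eval_comp, eval_add, eval_X, eval_C]
    push_cast
    rw [add_comm]
  have hM'1 : 1 ≤ M' := by rw [hM']; exact Nat.succ_pos _
  have hsub : {n : ℕ | J ≤ n ∧ n < J + M ∧ ¬ Rich b k (f.eval (n : ℝ))} ⊆
      (((range D).biUnion fun r => ((range M').filter fun m : ℕ => ¬ Rich b k ((G r).eval (m : ℝ))).image
        fun m : ℕ => D * (m₀ + m) + r : Finset ℕ) : Set ℕ) := by
    rintro n ⟨h1, h2, h3⟩
    rw [mem_coe, mem_biUnion]
    refine ⟨n % D, mem_range.2 (Nat.mod_lt _ hD), mem_image.2 ⟨n / D - m₀, mem_filter.2 ⟨mem_range.2 ?_, ?_⟩, ?_⟩⟩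
    · have a1 : n / D ≤ (J + M) / D := Nat.div_le_div_right h2.le
      have a2 : (J + M) / D ≤ J / D + M / D + 1 := by
        have h5 := Nat.add_div (a := J) (b := M) hD
        rw [h5]
        split_ifs <;> omega
      omega
    · have a1 : m₀ ≤ n / D := by rw [hm₀]; exact Nat.div_le_div_right h1
      rw [hG3]
      obtain ⟨z, hz⟩ := hg3 (n % D) (n / D)
      have a2 : m₀ + (n / D - m₀) = n / D := by omega
      rw [a2]
      rw [Nat.div_add_mod] at hz
      rw [hz, rich_add_int] at h3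
      exact h3
    · have a1 : m₀ ≤ n / D := by rw [hm₀]; exact Nat.div_le_div_right h1
      have a2 : m₀ + (n / D - m₀) = n / D := by omega
      simp only [a2]
      exact Nat.div_add_mod _ _
  have h1 : ({n : ℕ | J ≤ n ∧ n < J + M ∧ ¬ Rich b k (f.eval (n : ℝ))}.ncard : ℝ) ≤
      ∑ r ∈ range D, C * (b : ℝ) ^ k * M' * Real.exp (-(c * Real.log M' / (k * (b : ℝ) ^ k * Real.log b))) := by
    calc ({n : ℕ | J ≤ n ∧ n < J + M ∧ ¬ Rich b k (f.eval (n : ℝ))}.ncard : ℝ)
        ≤ (((range D).biUnion fun r => ((range M').filter fun m : ℕ => ¬ Rich b k ((G r).eval (m : ℝ))).image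
        fun m : ℕ => D * (m₀ + m) + r).card : ℝ) := by
          rw [← Set.ncard_coe_finset]
          exact_mod_cast Set.ncard_le_ncard hsub (Finset.finite_toSet _)
      _ ≤ ∑ r ∈ range D, ((((range M').filter fun m : ℕ => ¬ Rich b k ((G r).eval (m : ℝ))).image
        fun m : ℕ => D * (m₀ + m) + r).card : ℝ) := by exact_mod_cast card_biUnion_le
      _ ≤ ∑ r ∈ range D, (((range M').filter fun m : ℕ => ¬ Rich b k ((G r).eval (m : ℝ))).card : ℝ) := by
          exact sum_le_sum fun r _ => by exact_mod_cast card_image_le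
      _ ≤ _ := by
          refine sum_le_sum fun r _ => ?_
          have h5 := hmain (G r) (hG1 r) (hG2 r) b k M' hb hk hM'1
          have e1 : {n : ℕ | n < M' ∧ ¬ Rich b k ((G r).eval (n : ℝ))} =
              (((range M').filter fun n => ¬ Rich b k ((G r).eval (n : ℝ)) : Finset ℕ) : Set ℕ) := by
            ext n; simp
          rw [e1, Set.ncard_coe_finset] at h5
          exact h5
  refine h1.trans ?_
  rw [sum_const, card_range, nsmul_eq_mul]
  have hMr : (1 : ℝ) ≤ M := by exact_mod_cast hM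
  have hM0 : (0 : ℝ) < M := by linarith
  have hb2 : (2 : ℝ) ≤ b := by exact_mod_cast hb
  have hb0 : (0 : ℝ) < b := by linarith
  have hk1 : (1 : ℝ) ≤ k := by exact_mod_cast hk
  have hbk : (2 : ℝ) ≤ (b : ℝ) ^ k := by
    calc (2 : ℝ) ≤ b := hb2
      _ = (b : ℝ) ^ 1 := (pow_one _).symm
      _ ≤ (b : ℝ) ^ k := pow_le_pow_right₀ (by linarith) hk
  have hlb : Real.log 2 ≤ Real.log b := Real.log_le_log (by norm_num) hb2
  set P := (k : ℝ) * (b : ℝ) ^ k * Real.log b with hP
  have hP1 : 1 ≤ P := by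
    calc (1 : ℝ) ≤ 1 * 2 * Real.log 2 := by linarith
      _ ≤ P := by rw [hP]; gcongr
  have hP0 : 0 < P := by linarith
  have hM'u : (M' : ℝ) ≤ 3 * M := by
    have : M' ≤ 3 * M := by
      have := Nat.div_le_self M D
      omega
    exact_mod_cast this
  have hM'l : (M : ℝ) / D ≤ M' := by
    rw [div_le_iff₀ (by linarith)]
    have h5 : M < D * (M / D) + D := by
      have := Nat.div_add_mod M D
      have := Nat.mod_lt M hD
      omega
    have h6 : M ≤ M' * D := by
      rw [hM', add_mul, mul_comm (M / D) D]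
      omega
    exact_mod_cast h6
  have hlog : Real.log M - Real.log D ≤ Real.log M' := by
    rw [← Real.log_div (by linarith) (by linarith)]
    exact Real.log_le_log (by positivity) hM'l
  have hexp : Real.exp (-(c * Real.log M' / P)) ≤ Real.exp (c * Real.log D) * Real.exp (-(c * Real.log M / P)) := by
    rw [← Real.exp_add]
    apply Real.exp_le_exp.2
    have h5 : c * Real.log D / P ≤ c * Real.log D := div_le_self (by positivity) hP1
    have h6 : c * (Real.log M - Real.log D) / P ≤ c * Real.log M' / P := by gcongr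
    have h7 : c * (Real.log M - Real.log D) / P = c * Real.log M / P - c * Real.log D / P := by ring
    linarith
  calc (D : ℝ) * (C * (b : ℝ) ^ k * M' * Real.exp (-(c * Real.log M' / P)))
      ≤ D * (C * (b : ℝ) ^ k * (3 * M) * (Real.exp (c * Real.log D) * Real.exp (-(c * Real.log M / P)))) := by gcongr
    _ = _ := by ring

end Pool.Agent.N710.PW
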